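import Pool.Agent.TH880.N4.S6

/-!
# The curve inequality for the sections of `m L`, for an arbitrary divisor `L = A - B`
-/

set_option autoImplicit false

open MvPolynomial Filter Topology

namespace Pool.Agent.Y917.BS

open Pool.Agent.TH279.GR Pool.Agent.TH306.N4 Pool.Agent.W601.Curve Pool.Agent.TH880.N4

variable {a b : ℕ}

section

/-- the curve inequality for curves through at least one of the points, whatever the sign of `L · Q` -/
theorem curve (P : Ideal (Co a b)) (i : Fin (a + 1)) (j : Fin (b + 1)) {FF : Type} [Field FF] [Algebra ℂ FF]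
    (π : Co a b →ₐ[ℂ] FF) (hM : Mod P i j π) (n m s : ℕ) (hs : 2 ≤ s) (w : Fin n → Ix a b → ℂ)
    (_hw : Tuple i j P w) (hinj : Function.Injective w)
    (hsep : SepV (chart i j P) (fun F => Sec π m (π F)) s w) (Q : Ideal (Co a b)) (dA dB : ℝ) (hPQ : P ≤ Q)
    (hQ : Curv Q dA dB) (μ : Fin n → ℝ) (hμ : ∀ q, IsMult i j Q (w q) (μ q))
    (hpos : 0 < ∑ q, μ q) :
    ((s : ℝ) - 1) * ∑ q, μ q ≤ m * (dA - dB) := by
  classical
  obtain ⟨J, hJ⟩ : ∃ J, J = chart i j Q := ⟨_, rfl⟩
  have hfinJ : ∀ q K, Module.Finite ℂ (Co a b ⧸ (J ⊔ (mx (w q)) ^ K)) :=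
    fun q K => finite_quot_of_le (w q) K _ le_sup_right
  have hall0 : (∀ q, μ q = 0) → ((s : ℝ) - 1) * ∑ q, μ q ≤ m * (dA - dB) := by
    intro h
    simp only [h, Finset.sum_const_zero] at hpos
    exact absurd hpos (lt_irrefl _)
  by_cases htop : J = ⊤
  · apply hall0
    intro q
    refine mult_zero (c := 0) (fun K => ?_) (hμ q)
    have : Subsingleton (Co a b ⧸ (chart i j Q ⊔ (mx (w q)) ^ K)) := by
      rw [Ideal.Quotient.subsingleton_iff, ← hJ, htop, top_sup_eq]
    exact (Module.finrank_zero_of_subsingleton).le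
  have hx : X (Sum.inl i) ∉ Q := by
    intro h
    apply htop
    rw [hJ, Ideal.eq_top_iff_one]
    have h1 : (X (Sum.inl i) - 1 : Co a b) ∈ chart i j Q := Ideal.mem_sup_right (x_mem_ch0 (j₀ := j))
    have h2 : (X (Sum.inl i) : Co a b) ∈ chart i j Q := Ideal.mem_sup_left h
    have := sub_mem h2 h1
    rwa [sub_sub_cancel] at this
  have hy : X (Sum.inr j) ∉ Q := by
    intro h
    apply htop
    rw [hJ, Ideal.eq_top_iff_one]
    have h1 : (X (Sum.inr j) - 1 : Co a b) ∈ chart i j Q := Ideal.mem_sup_right (y_mem_ch0 (i₀ := i))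
    have h2 : (X (Sum.inr j) : Co a b) ∈ chart i j Q := Ideal.mem_sup_left h
    have := sub_mem h2 h1
    rwa [sub_sub_cancel] at this
  have hprime : (chart i j Q).IsPrime := chart_prime Q hQ.prime hQ.hom hx hy
  have hdom : IsDomain (Co a b ⧸ chart i j Q) := Ideal.Quotient.isDomain _
  have hIJ : chart i j P ≤ J := by rw [hJ]; exact sup_le_sup hPQ le_rfl
  obtain ⟨k, rfl⟩ : ∃ k, s = k + 1 := ⟨s - 1, by omega⟩
  have hk : 1 ≤ k := by omega
  by_cases hG : ∃ F : Co a b, Sec π m (π F) ∧ F ∉ J ∧ ∀ q, F ∈ J ⊔ (mx (w q)) ^ k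
  · obtain ⟨F, hFS, hFJ, hFk⟩ := hG
    obtain ⟨c, hc⟩ := hFS
    rw [hJ] at hFJ hFk hIJ hfinJ
    have hB := biFil (i := i) (j := j) Q
    have hgr : ∀ p q : ℕ, 1 ≤ p → 1 ≤ q → Tendsto (fun t : ℕ => (Module.finrank ℂ
        ((bh a b (p * t) (q * t)).map (Ideal.Quotient.mkₐ ℂ (chart i j Q)).toLinearMap) : ℝ) / (t : ℝ)) atTop
        (𝓝 (dA * p + dB * q)) := by
      intro p q hp hq
      refine (hQ.growth p q hp hq).congr fun t => ?_
      have hfb := finite_bh (a := a) (b := b) (p * t) (q * t)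
      have e : hf Q (p * t) (q * t) = Module.finrank ℂ
        ((bh a b (p * t) (q * t)).map (Ideal.Quotient.mkₐ ℂ (chart i j Q)).toLinearMap) := by
        unfold hf
        refine finrank_map_congr _ _ _ fun f hf' => ?_
        show Ideal.Quotient.mk Q f = 0 ↔ Ideal.Quotient.mk (chart i j Q) f = 0
        rw [Ideal.Quotient.eq_zero_iff_mem, Ideal.Quotient.eq_zero_iff_mem]
        exact ⟨fun h => Ideal.mem_sup_left h, fun h => mem_of_mem_chart Q hQ.prime hQ.hom hx hy hf' h⟩
      rw [e]
    have hcore := curve_core hB (α := dA) (β := dB) hgr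
      (fun q : Fin n => (mx (w q)).map (Ideal.Quotient.mk (chart i j Q)))
      (fun q K => by
        rw [← Ideal.map_pow]
        exact finite_quot' _ _ _ (hfinJ q K))
      (fun q q' hqq => coprime_map _ _ _ (coprime_mw (w q) (w q') (fun h => hqq (hinj h))))
      (G := Ideal.Quotient.mk (chart i j Q) F) (fun h => hFJ (Ideal.Quotient.eq_zero_iff_mem.1 h))
      (k := k) (m := m) (u0 := c) (v0 := c)
      (fun q => by
        rw [← Ideal.map_pow]
        obtain ⟨y, hy', z, hz', hyz⟩ := Submodule.mem_sup.1 (hFk q)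
        have e : Ideal.Quotient.mk (chart i j Q) F = Ideal.Quotient.mk (chart i j Q) z := by
          rw [Ideal.Quotient.eq, ← hyz, add_sub_cancel_right]; exact hy'
        rw [e]
        exact Ideal.mem_map_of_mem _ hz')
      (fun f hf' => by
        obtain ⟨f, hf', rfl⟩ := hf'
        obtain ⟨f', hf'', hff⟩ := hc (π f) ⟨f, hf', rfl⟩
        refine ⟨f', hf'', ?_⟩
        show Ideal.Quotient.mk (chart i j Q) f' = Ideal.Quotient.mk (chart i j Q) F * Ideal.Quotient.mk (chart i j Q) f
        rw [← map_mul, Ideal.Quotient.eq]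
        apply hIJ
        rw [← hM.ker, map_sub, map_mul]
        have : π f' = π F * π f := hff
        rw [this, sub_self])
    have hcore' : ∀ t : ℕ, ∑ q, (Module.finrank ℂ (Co a b ⧸ (chart i j Q ⊔ (mx (w q)) ^ (k * t))) : ℝ) ≤
        (dA - dB) * (m * t) := by
      intro t
      have h1 := hcore t
      push_cast at h1
      refine le_trans (le_of_eq ?_) h1
      refine Finset.sum_congr rfl fun q _ => ?_
      rw [← Ideal.map_pow, finrank_quot]
    have hkr : (0 : ℝ) < k := by exact_mod_cast hk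
    have hsub : Tendsto (fun t : ℕ => k * t) atTop atTop := tendsto_atTop_mono (f := fun t => t) (fun t => by
      show t ≤ k * t
      nlinarith) tendsto_id
    have hL : Tendsto (fun t : ℕ => ∑ q, (Module.finrank ℂ (Co a b ⧸ (chart i j Q ⊔ (mx (w q)) ^ (k * t))) : ℝ) /
        ((k * t : ℕ) : ℝ)) atTop (𝓝 (∑ q, μ q)) := tendsto_finsetSum _ fun q _ => (hμ q).comp hsub
    have hle : ∑ q, μ q ≤ (dA - dB) * m / k := by
      refine le_of_tendsto hL ?_
      filter_upwards [eventually_gt_atTop 0] with t ht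
      have ht' : (0 : ℝ) < t := by exact_mod_cast ht
      have h1 := hcore' t
      rw [← Finset.sum_div, div_le_div_iff₀ (by positivity) hkr]
      push_cast at h1 ⊢
      nlinarith [mul_le_mul_of_nonneg_right h1 hkr.le]
    rw [le_div_iff₀ hkr] at hle
    push_cast
    linarith
  · push Not at hG
    apply hall0
    intro q
    have hle : (mx (w q)) ^ k ≤ J ⊔ (mx (w q)) ^ (k + 1) := by
      intro g hg
      obtain ⟨F, hFh, hFg, hFq⟩ := hsep q g
      have hFg' : F - g ∈ J ⊔ (mx (w q)) ^ (k + 1) := (sup_le_sup hIJ le_rfl) hFg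
      have hFP : F ∈ J := by
        by_contra hFP
        obtain ⟨q', hq'⟩ := hG F hFh hFP
        apply hq'
        have hmono : ∀ q, J ⊔ (mx (w q)) ^ (k + 1) ≤ J ⊔ (mx (w q)) ^ k := fun q =>
          sup_le_sup le_rfl (Ideal.pow_le_pow_right (Nat.le_succ k))
        by_cases hqq : q' = q
        · subst hqq
          have : F = (F - g) + g := by ring
          rw [this]
          exact add_mem (hmono _ hFg') (Ideal.mem_sup_right hg)
        · exact hmono _ ((sup_le_sup hIJ le_rfl) (hFq q' hqq))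
      have : g = F - (F - g) := by ring
      rw [this]
      exact sub_mem (Ideal.mem_sup_left hFP) hFg'
    refine mult_zero (c := Module.finrank ℂ (Co a b ⧸ (J ⊔ (mx (w q)) ^ k))) (fun K => ?_) (hμ q)
    rw [← hJ]
    exact finrank_mono (sup_le le_sup_left (pow_le_sup J (mx (w q)) k hle K)) (hfinJ q k)

end

end Pool.Agent.Y917.BS
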