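import Pool.Agent.Y917.BS.Gen
import Pool.Agent.TH306.N4.Main

/-!
# The final statements, without the function field
-/

set_option autoImplicit false

open MvPolynomial Module Filter Topology

namespace Pool.Agent.Y917.BS

open Pool.Agent.TH279.GR Pool.Agent.TH306.N4 Pool.Agent.TH611.M5

variable {a b : ℕ}

/-- `F` is, on the chart, a section of `m L` -/
def ChSec (i : Fin (a + 1)) (j : Fin (b + 1)) (P : Ideal (Co a b)) (m : ℕ) (F : Co a b) : Prop :=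
  ∃ c : ℕ, ∀ g ∈ bh a b c (c + m), ∃ f ∈ bh a b (c + m) c, F * g - f ∈ chart i j P

/-- the space of the sections of `m L` on the chart -/
noncomputable def secs (i : Fin (a + 1)) (j : Fin (b + 1)) (P : Ideal (Co a b)) (m : ℕ) :
    Submodule ℂ (Co a b ⧸ chart i j P) :=
  Submodule.span ℂ {z | ∃ F, ChSec i j P m F ∧ Ideal.Quotient.mk (chart i j P) F = z}

theorem chSec_iff {P : Ideal (Co a b)} {i : Fin (a + 1)} {j : Fin (b + 1)}
    {FF : Type} [Field FF] [Algebra ℂ FF] {π : Co a b →ₐ[ℂ] FF} (hπ : Mod P i j π) (m : ℕ)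
    (F : Co a b) : ChSec i j P m F ↔ Sec π m (π F) := by
  constructor
  · rintro ⟨c, hc⟩
    refine ⟨c, ?_⟩
    rintro _ ⟨g, hg, rfl⟩
    obtain ⟨f, hf, hfg⟩ := hc g hg
    refine ⟨f, hf, ?_⟩
    have h1 := (hπ.ker _).2 hfg
    rw [map_sub, map_mul, sub_eq_zero] at h1
    exact h1.symm
  · rintro ⟨c, hc⟩
    refine ⟨c, fun g hg => ?_⟩
    obtain ⟨f, hf, hfg⟩ := hc (π g) ⟨g, hg, rfl⟩
    refine ⟨f, hf, ?_⟩
    rw [← hπ.ker, map_sub, map_mul, sub_eq_zero]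
    exact hfg.symm

theorem finrank_secs {P : Ideal (Co a b)} {i : Fin (a + 1)} {j : Fin (b + 1)}
    {FF : Type} [Field FF] [Algebra ℂ FF] {π : Co a b →ₐ[ℂ] FF} (hπ : Mod P i j π) (m : ℕ) :
    finrank ℂ (secs i j P m) = finrank ℂ (SecM π m) := by
  let φ : (Co a b ⧸ chart i j P) →ₐ[ℂ] FF :=
    Ideal.Quotient.liftₐ (chart i j P) π fun f hf => (hπ.ker f).2 hf
  have hφ : ∀ F, φ (Ideal.Quotient.mk (chart i j P) F) = π F := fun F => rfl
  have hinj : Function.Injective φ := by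
    rw [injective_iff_map_eq_zero]
    intro z hz
    obtain ⟨F, rfl⟩ := Ideal.Quotient.mk_surjective z
    rw [hφ] at hz
    exact Ideal.Quotient.eq_zero_iff_mem.2 ((hπ.ker F).1 hz)
  have hmap : (secs i j P m).map φ.toLinearMap = SecM π m := by
    unfold secs SecM
    rw [Submodule.map_span]
    congr 1
    ext ψ
    constructor
    · rintro ⟨z, ⟨F, hF, rfl⟩, rfl⟩
      exact (chSec_iff hπ m F).1 hF
    · intro hψ
      obtain ⟨F, rfl⟩ := (Pool.Agent.TH880.N4.s0 a b P i j FF π hπ m).2.2 ψ hψ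
      exact ⟨_, ⟨F, (chSec_iff hπ m F).2 hψ, rfl⟩, rfl⟩
  rw [← hmap]
  exact LinearEquiv.finrank_eq (Submodule.equivMapOfInjective φ.toLinearMap hinj _)

/-- the sections of `m L` separate jets: they generate all `O_w / 𝔪_w ^ s` at the points `w q` -/
def Jets (i : Fin (a + 1)) (j : Fin (b + 1)) (P : Ideal (Co a b)) (m s : ℕ) {n : ℕ}
    (w : Fin n → Ix a b → ℂ) : Prop :=
  ∀ q (f : Co a b), ∃ F, ChSec i j P m F ∧ F - f ∈ chart i j P ⊔ mx (w q) ^ s ∧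
    ∀ q', q' ≠ q → F ∈ chart i j P ⊔ mx (w q') ^ s

theorem jets_iff {P : Ideal (Co a b)} {i : Fin (a + 1)} {j : Fin (b + 1)}
    {FF : Type} [Field FF] [Algebra ℂ FF] {π : Co a b →ₐ[ℂ] FF} (hπ : Mod P i j π) {m s n : ℕ}
    {w : Fin n → Ix a b → ℂ} :
    Jets i j P m s w ↔ SepV (chart i j P) (fun F => Sec π m (π F)) s w := by
  unfold Jets SepV
  simp only [chSec_iff hπ]

/-- the asymptotic order of the jets separated by the multiples of `L` at `w` is `c` -/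
def JetLim (i : Fin (a + 1)) (j : Fin (b + 1)) (P : Ideal (Co a b)) {n : ℕ}
    (w : Fin n → Ix a b → ℂ) (c : ℝ) : Prop :=
  ∀ ε : ℝ, 0 < ε → ∃ m₁ : ℕ, ∀ m, m₁ ≤ m → (∃ s : ℕ, (c - ε) * m ≤ s ∧ Jets i j P m s w) ∧
    ∀ s : ℕ, Jets i j P m s w → (s : ℝ) ≤ (c + ε) * m

theorem jetLim_of {P : Ideal (Co a b)} {i : Fin (a + 1)} {j : Fin (b + 1)}
    {FF : Type} [Field FF] [Algebra ℂ FF] {π : Co a b →ₐ[ℂ] FF} (hπ : Mod P i j π) {n : ℕ} {c : ℝ}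
    {w : Fin n → Ix a b → ℂ} (h1 : JetsGE P i j π c w) (h2 : JetsLE P i j π c w) :
    JetLim i j P w c := by
  intro ε hε
  obtain ⟨m1, hm1⟩ := h1 ε hε
  obtain ⟨m2, hm2⟩ := h2 ε hε
  refine ⟨max m1 m2, fun m hm => ⟨?_, fun s hs => ?_⟩⟩
  · obtain ⟨s, -, h3, h4⟩ := hm1 m ((le_max_left _ _).trans hm)
    exact ⟨s, h3, (jets_iff hπ).2 h4⟩
  · exact hm2 m ((le_max_right _ _).trans hm) s ((jets_iff hπ).1 hs)

/-- with `c = 0` only the upper bound matters -/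
theorem jetLim_zero {P : Ideal (Co a b)} {i : Fin (a + 1)} {j : Fin (b + 1)}
    {FF : Type} [Field FF] [Algebra ℂ FF] {π : Co a b →ₐ[ℂ] FF} (hπ : Mod P i j π) {n : ℕ}
    {w : Fin n → Ix a b → ℂ} (h2 : JetsLE P i j π 0 w) :
    JetLim i j P w 0 := by
  intro ε hε
  obtain ⟨m2, hm2⟩ := h2 ε hε
  refine ⟨m2, fun m hm => ⟨⟨0, ?_, ?_⟩, fun s hs => hm2 m hm s ((jets_iff hπ).1 hs)⟩⟩
  · have : (0 : ℝ) ≤ m := Nat.cast_nonneg m
    push_cast
    nlinarith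
  · rw [jets_iff hπ]
    intro q f
    refine ⟨0, ?_, ?_, fun q' _ => zero_mem _⟩
    · show Sec π m (π 0)
      rw [map_zero]
      have h0 := (Pool.Agent.TH880.N4.s0 a b P i j FF π hπ m).1 0
      exact h0.1 (zero_mem _)
    · rw [pow_zero, Ideal.one_eq_top, sup_top_eq]
      exact trivial

/-- the volume of `L` is `δ` -/
def Vol (P : Ideal (Co a b)) (δ : ℝ) : Prop :=
  ∀ i j, X (Sum.inl i) ∉ P → X (Sum.inr j) ∉ P →
    Tendsto (fun m : ℕ => 2 * (finrank ℂ (secs i j P m) : ℝ) / (m : ℝ) ^ 2) atTop (𝓝 δ)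

/-- a tuple outside the countably many hypersurfaces -/
def VG {n : ℕ} (i : Fin (a + 1)) (j : Fin (b + 1)) (P : Ideal (Co a b))
    (H : ℕ → MvPolynomial (Fin n × Ix a b) ℂ) (w : Fin n → Ix a b → ℂ) : Prop :=
  Tuple i j P w ∧ ∀ k, eval (fun p => w p.1 p.2) (H k) ≠ 0

theorem finDim {P : Ideal (Co a b)} {α β γ : ℕ} (hX : Surf P α β γ)
    {i : Fin (a + 1)} {j : Fin (b + 1)}
    {FF : Type} [Field FF] [Algebra ℂ FF] {π : Co a b →ₐ[ℂ] FF} (hπ : Mod P i j π) (m : ℕ) :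
    FiniteDimensional ℂ (SecM π m) := by
  obtain ⟨W, hW⟩ := Pool.Agent.TH279.GR.G0a.exists_GaS P ⊤ m 0 0 m
  have hfin : FiniteDimensional ℂ W :=
    Pool.Agent.TH279.GR.G11.finite_sections hX m 0 0 m W (fun ψ hψ => (hW ψ).1 hψ)
  exact (Pool.Agent.TH279.GR.S7b.compare hπ m W hW).1

theorem vol_growth {P : Ideal (Co a b)} {i : Fin (a + 1)} {j : Fin (b + 1)}
    {FF : Type} [Field FF] [Algebra ℂ FF] {π : Co a b →ₐ[ℂ] FF} (hπ : Mod P i j π) {δ : ℝ}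
    (hV : Vol P δ) : ∀ ε : ℝ, 0 < ε → ∃ m₀ : ℕ, ∀ m, m₀ ≤ m →
      (δ - ε) * (m : ℝ) ^ 2 ≤ 2 * finrank ℂ (SecM π m) ∧
      2 * (finrank ℂ (SecM π m) : ℝ) ≤ (δ + ε) * (m : ℝ) ^ 2 := by
  intro ε hε
  have h1 := hV i j hπ.hi hπ.hj
  have h2 := (h1.eventually (Ioo_mem_nhds (by linarith : δ - ε < δ) (by linarith : δ < δ + ε))).and
    (eventually_ge_atTop 1)
  obtain ⟨m₀, hm₀⟩ := eventually_atTop.1 h2
  refine ⟨m₀, fun m hm => ?_⟩
  obtain ⟨⟨h3, h4⟩, h5⟩ := hm₀ m hm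
  have hm0 : (0 : ℝ) < (m : ℝ) ^ 2 := by
    have : (1 : ℝ) ≤ m := by exact_mod_cast h5
    positivity
  rw [finrank_secs hπ] at h3 h4
  rw [lt_div_iff₀ hm0] at h3
  rw [div_lt_iff₀ hm0] at h4
  exact ⟨h3.le, h4.le⟩

/-- **All divisors.** -/
theorem all_divisors (P : Ideal (Co a b)) (α β γ : ℕ) (hX : Surf P α β γ) (hN : Normal P)
    (δ : ℝ) (hV : Vol P δ) (hδ : 0 ≤ δ) :
    ∃ n₀ : ℕ, ∀ n, n₀ ≤ n → ∀ i j, X (Sum.inl i) ∉ P → X (Sum.inr j) ∉ P →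
      ∃ H : ℕ → MvPolynomial (Fin n × Ix a b) ℂ,
        (∃ w, VG i j P H w) ∧
        ∀ w, VG i j P H w → Function.Injective w ∧ JetLim i j P w (√(δ / n)) ∧
          (0 < δ → ∀ (Q : Ideal (Co a b)) (dA dB : ℝ) (μ : Fin n → ℝ), P ≤ Q → Curv Q dA dB →
            (∀ q, IsMult i j Q (w q) (μ q)) → 0 < ∑ q, μ q →
            √(δ / n) * ∑ q, μ q ≤ dA - dB) := by
  classical
  have key : ∀ p : Fin (a + 1) × Fin (b + 1), ∃ n₀ : ℕ, ∀ n, n₀ ≤ n → X (Sum.inl p.1) ∉ P →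
      X (Sum.inr p.2) ∉ P →
      ∃ H : ℕ → MvPolynomial (Fin n × Ix a b) ℂ,
        (∃ w, VG p.1 p.2 P H w) ∧
        ∀ w, VG p.1 p.2 P H w → Function.Injective w ∧ JetLim p.1 p.2 P w (√(δ / n)) ∧
          (0 < δ → ∀ (Q : Ideal (Co a b)) (dA dB : ℝ) (μ : Fin n → ℝ), P ≤ Q → Curv Q dA dB →
            (∀ q, IsMult p.1 p.2 Q (w q) (μ q)) → 0 < ∑ q, μ q →
            √(δ / n) * ∑ q, μ q ≤ dA - dB) := by
    rintro ⟨i, j⟩
    by_cases hi : X (Sum.inl i) ∈ P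
    · exact ⟨0, fun n _ h => absurd hi h⟩
    by_cases hj : X (Sum.inr j) ∈ P
    · exact ⟨0, fun n _ _ h => absurd hj h⟩
    obtain ⟨FF, _, _, π, hπ⟩ := exists_Mod hX.prime hX.hom hi hj
    have hfin := finDim hX hπ
    have hgr := vol_growth hπ hV
    rcases hδ.eq_or_lt with h0 | h0
    · refine ⟨1, fun n hn _ _ => ?_⟩
      obtain ⟨H, ⟨w0, hw0, hw0H⟩, hH⟩ := generic hX hi hj n
      refine ⟨fun _ => H, ⟨w0, hw0, fun _ => hw0H⟩, fun w hw => ?_⟩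
      obtain ⟨hinj, hsm⟩ := hH w hw.1 (hw.2 0)
      refine ⟨hinj, ?_, fun h => absurd h0 h.ne⟩
      have hup := up hπ hfin hδ (fun ε hε => by
        obtain ⟨m₀, hm₀⟩ := hgr ε hε
        exact ⟨m₀, fun m hm => (hm₀ m hm).2⟩) hn hsm
      rw [← h0, zero_div, Real.sqrt_zero] at hup ⊢
      exact jetLim_zero hπ hup
    · obtain ⟨n₀, hn₀⟩ := low hX hN hi hj hπ hfin h0 (fun ε hε => by
        obtain ⟨m₀, hm₀⟩ := hgr ε hε
        exact ⟨m₀, fun m hm => (hm₀ m hm).1⟩)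
      refine ⟨max n₀ 1, fun n hn _ _ => ?_⟩
      have hn1 : 1 ≤ n := (le_max_right _ _).trans hn
      obtain ⟨H1, hH1, hH1'⟩ := hn₀ n ((le_max_left _ _).trans hn)
      obtain ⟨H2, ⟨w0, hw0, hw0H⟩, hH2⟩ := generic hX hi hj n
      obtain ⟨G, ⟨w1, hw1, hw1'⟩, hG⟩ := merge hX.prime hX.hom hi hj
        (fun u k => if u = 0 then H1 k else H2) (fun u => by
          by_cases hu : u = 0
          · obtain ⟨w, h1, h2⟩ := hH1
            exact ⟨w, h1, fun k => by rw [if_pos hu]; exact h2 k⟩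
          · exact ⟨w0, hw0, fun k => by rw [if_neg hu]; exact hw0H⟩)
      refine ⟨G, ⟨w1, hw1, hw1'⟩, fun w hw => ?_⟩
      have hw2 := hG w hw.2
      obtain ⟨hinj, hge⟩ := hH1' w hw.1 (fun k => by simpa using hw2 0 k)
      obtain ⟨-, hsm⟩ := hH2 w hw.1 (by simpa using hw2 1 0)
      refine ⟨hinj, jetLim_of hπ hge (up hπ hfin hδ (fun ε hε => by
        obtain ⟨m₀, hm₀⟩ := hgr ε hε
        exact ⟨m₀, fun m hm => (hm₀ m hm).2⟩) hn1 hsm), ?_⟩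
      intro _ Q dA dB μ hPQ hQ hμ hpos
      exact curve_of_jets hπ hw.1 hinj hge hPQ hQ hμ hpos
  choose N hNN using key
  exact ⟨Finset.univ.sup N, fun n hn i j hi hj =>
    hNN (i, j) n ((Finset.le_sup (f := N) (Finset.mem_univ (i, j))).trans hn) hi hj⟩

/-- **Nef divisors.** -/
theorem nef_divisors (P : Ideal (Co a b)) (α β γ : ℕ) (hX : Surf P α β γ) (hN : Normal P)
    (hnef : Nef P) :
    2 * β ≤ α + γ ∧ (∃ i j, X (Sum.inl i) ∉ P ∧ X (Sum.inr j) ∉ P) ∧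
    ∃ n₀ : ℕ, ∀ n, n₀ ≤ n → ∀ i j, X (Sum.inl i) ∉ P → X (Sum.inr j) ∉ P →
      ∃ H : ℕ → MvPolynomial (Fin n × Ix a b) ℂ,
        (∃ w, VG i j P H w) ∧
        ∀ w, VG i j P H w → Function.Injective w ∧
          JetLim i j P w (√(((α : ℝ) - 2 * β + γ) / n)) ∧
          IsGLB (ratios i j P w) (√(((α : ℝ) - 2 * β + γ) / n)) := by
  classical
  obtain ⟨hL, hij, n₁, hn₁⟩ := finalZ a b P α β γ hX hN hnef
  refine ⟨hL, hij, ?_⟩
  obtain ⟨δ, hδ⟩ : ∃ δ : ℝ, δ = (α : ℝ) - 2 * β + γ := ⟨_, rfl⟩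
  have hδ0 : 0 ≤ δ := by
    have : ((2 * β : ℕ) : ℝ) ≤ ((α + γ : ℕ) : ℝ) := by exact_mod_cast hL
    push_cast at this
    rw [hδ]
    linarith
  rw [← hδ] at hn₁ ⊢
  have key : ∀ p : Fin (a + 1) × Fin (b + 1), ∃ n₀ : ℕ, ∀ n, n₀ ≤ n → X (Sum.inl p.1) ∉ P →
      X (Sum.inr p.2) ∉ P →
      ∃ H : ℕ → MvPolynomial (Fin n × Ix a b) ℂ,
        (∃ w, VG p.1 p.2 P H w) ∧
        ∀ w, VG p.1 p.2 P H w → Function.Injective w ∧
          JetLim p.1 p.2 P w (√(δ / n)) ∧ IsGLB (ratios p.1 p.2 P w) (√(δ / n)) := by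
    rintro ⟨i, j⟩
    by_cases hi : X (Sum.inl i) ∈ P
    · exact ⟨0, fun n _ h => absurd hi h⟩
    by_cases hj : X (Sum.inr j) ∈ P
    · exact ⟨0, fun n _ _ h => absurd hj h⟩
    obtain ⟨FF, _, _, π, hπ⟩ := exists_Mod hX.prime hX.hom hi hj
    rcases hδ0.eq_or_lt with h0 | h0
    · refine ⟨n₁, fun n hn _ _ => ?_⟩
      obtain ⟨H, hH1, hH2⟩ := hn₁ n hn i j hi hj
      refine ⟨H, hH1, fun w hw => ?_⟩
      obtain ⟨hinj, hglb⟩ := hH2 w hw.1 hw.2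
      refine ⟨hinj, ?_, hglb⟩
      rw [← h0, zero_div, Real.sqrt_zero] at hglb ⊢
      exact jetLim_zero hπ (up_curves hπ hw.1 hinj hglb le_rfl)
    · obtain ⟨hfin, hgr⟩ := Pool.Agent.TH279.GR.S7b.s7 a b P α β γ hX hnef i j FF π hπ
      rw [← hδ] at hgr
      obtain ⟨n₀, hn₀⟩ := low hX hN hi hj hπ hfin h0 hgr
      refine ⟨max n₀ n₁, fun n hn _ _ => ?_⟩
      obtain ⟨H1, hH1, hH1'⟩ := hn₀ n ((le_max_left _ _).trans hn)
      obtain ⟨H2, hH2, hH2'⟩ := hn₁ n ((le_max_right _ _).trans hn) i j hi hj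
      obtain ⟨G, ⟨w1, hw1, hw1'⟩, hG⟩ := merge hX.prime hX.hom hi hj
        (fun u k => if u = 0 then H1 k else H2 k) (fun u => by
          by_cases hu : u = 0
          · obtain ⟨w, h1, h2⟩ := hH1
            exact ⟨w, h1, fun k => by rw [if_pos hu]; exact h2 k⟩
          · obtain ⟨w, h1, h2⟩ := hH2
            exact ⟨w, h1, fun k => by rw [if_neg hu]; exact h2 k⟩)
      refine ⟨G, ⟨w1, hw1, hw1'⟩, fun w hw => ?_⟩
      have hw2 := hG w hw.2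
      obtain ⟨hinj, hge⟩ := hH1' w hw.1 (fun k => by simpa using hw2 0 k)
      obtain ⟨-, hglb⟩ := hH2' w hw.1 (fun k => by simpa using hw2 1 k)
      exact ⟨hinj, jetLim_of hπ hge (up_curves hπ hw.1 hinj hglb (Real.sqrt_nonneg _)), hglb⟩
  choose N hNN using key
  exact ⟨Finset.univ.sup N, fun n hn i j hi hj =>
    hNN (i, j) n ((Finset.le_sup (f := N) (Finset.mem_univ (i, j))).trans hn) hi hj⟩

theorem jetLim_le {P : Ideal (Co a b)} {i : Fin (a + 1)} {j : Fin (b + 1)} {n : ℕ}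
    {w : Fin n → Ix a b → ℂ} {c c' : ℝ} (h : JetLim i j P w c) (h' : JetLim i j P w c') :
    c ≤ c' := by
  refine le_of_forall_pos_le_add fun ε hε => ?_
  obtain ⟨m1, hm1⟩ := h (ε / 2) (by positivity)
  obtain ⟨m2, hm2⟩ := h' (ε / 2) (by positivity)
  obtain ⟨m, hm⟩ : ∃ m : ℕ, m = max (max m1 m2) 1 := ⟨_, rfl⟩
  have hm0 : (0 : ℝ) < m := by
    have : 1 ≤ m := by rw [hm]; exact le_max_right _ _
    exact_mod_cast this
  obtain ⟨s, hs, hJ⟩ := (hm1 m (by rw [hm]; exact (le_max_left _ _).trans (le_max_left _ _))).1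
  have h2 := (hm2 m (by rw [hm]; exact (le_max_right _ _).trans (le_max_left _ _))).2 s hJ
  have h3 : (c - ε / 2) * m ≤ (c' + ε / 2) * m := hs.trans h2
  have h4 := le_of_mul_le_mul_right h3 hm0
  linarith

/-- the volume of a nef divisor is its self-intersection -/
theorem vol_nef (P : Ideal (Co a b)) (α β γ : ℕ) (hX : Surf P α β γ) (hN : Normal P)
    (hnef : Nef P) (δ : ℝ) (hV : Vol P δ) (hδ : 0 ≤ δ) : δ = (α : ℝ) - 2 * β + γ := by
  obtain ⟨hL, ⟨i, j, hi, hj⟩, n₁, hn₁⟩ := nef_divisors P α β γ hX hN hnef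
  obtain ⟨n₂, hn₂⟩ := all_divisors P α β γ hX hN δ hV hδ
  obtain ⟨n, hn⟩ : ∃ n : ℕ, n = max (max n₁ n₂) 1 := ⟨_, rfl⟩
  have hn0 : (0 : ℝ) < n := by
    have : 1 ≤ n := by rw [hn]; exact le_max_right _ _
    exact_mod_cast this
  obtain ⟨H1, hH1, hH1'⟩ := hn₁ n (by rw [hn]; exact (le_max_left _ _).trans (le_max_left _ _))
    i j hi hj
  obtain ⟨H2, hH2, hH2'⟩ := hn₂ n (by rw [hn]; exact (le_max_right _ _).trans (le_max_left _ _))
    i j hi hj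
  obtain ⟨G, ⟨w, hw, hwG⟩, hG⟩ := merge hX.prime hX.hom hi hj
    (fun u k => if u = 0 then H1 k else H2 k) (fun u => by
      by_cases hu : u = 0
      · obtain ⟨w, h1, h2⟩ := hH1
        exact ⟨w, h1, fun k => by rw [if_pos hu]; exact h2 k⟩
      · obtain ⟨w, h1, h2⟩ := hH2
        exact ⟨w, h1, fun k => by rw [if_neg hu]; exact h2 k⟩)
  have hw2 := hG w hwG
  have h1 := (hH1' w ⟨hw, fun k => by simpa using hw2 0 k⟩).2.1
  have h2 := (hH2' w ⟨hw, fun k => by simpa using hw2 1 k⟩).2.1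
  have h3 : √(δ / n) = √(((α : ℝ) - 2 * β + γ) / n) :=
    le_antisymm (jetLim_le h2 h1) (jetLim_le h1 h2)
  have hL0 : 0 ≤ (α : ℝ) - 2 * β + γ := by
    have : ((2 * β : ℕ) : ℝ) ≤ ((α + γ : ℕ) : ℝ) := by exact_mod_cast hL
    push_cast at this
    linarith
  rw [Real.sqrt_inj (by positivity) (by positivity)] at h3
  field_simp at h3
  exact h3

/-- the volume is nonnegative -/
theorem vol_nonneg {P : Ideal (Co a b)} {α β γ : ℕ} (hX : Surf P α β γ) {δ : ℝ}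
    (hV : Vol P δ) : 0 ≤ δ := by
  obtain ⟨i, j, hi, hj⟩ := exists_ij hX
  exact ge_of_tendsto' (hV i j hi hj) fun m => by positivity

end Pool.Agent.Y917.BS
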