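import Pool.Agent.Y917.BS.Up

/-!
# Very general tuples: distinct smooth points, and countably many families of conditions
-/

set_option autoImplicit false

open MvPolynomial Module Filter Topology

namespace Pool.Agent.Y917.BS

open Pool.Agent.TH279.GR Pool.Agent.TH306.N4 Pool.Agent.TH611.M5

variable {a b : ℕ}

/-- tuples of distinct smooth points -/
theorem generic {P : Ideal (Co a b)} {α β γ : ℕ} (hX : Surf P α β γ)
    {i : Fin (a + 1)} {j : Fin (b + 1)} (hi : X (Sum.inl i) ∉ P) (hj : X (Sum.inr j) ∉ P)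
    (n : ℕ) :
    ∃ H : MvPolynomial (Fin n × Ix a b) ℂ,
      (∃ w : Fin n → Ix a b → ℂ, Tuple i j P w ∧ eval (fun p => w p.1 p.2) H ≠ 0) ∧
      ∀ w : Fin n → Ix a b → ℂ, Tuple i j P w → eval (fun p => w p.1 p.2) H ≠ 0 →
        Function.Injective w ∧ ∀ q, SmoothAt P i j (w q) := by
  classical
  obtain ⟨h, hh, hsm⟩ := Pool.Agent.TH471.N4.u4 j3 a b P α β γ hX i j hi hj
  obtain ⟨f, hf⟩ := nonConst a b P α β γ hX i j hi hj
  have hJ := chart_prime hX.prime hX.hom hi hj
  obtain ⟨z, hz, hzh⟩ := exists_point_countable (ι := Unit) (chart i j P) hJ (fun _ => h)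
    (fun _ => hh)
  obtain ⟨z', hz', hzf⟩ := exists_point_countable (ι := Unit) (chart i j P) hJ
    (fun _ => f - C (eval z f)) (fun _ => hf _)
  have hzz : eval z' f ≠ eval z f := by
    have := hzf ()
    rw [map_sub, eval_C] at this
    exact sub_ne_zero.1 this
  -- the polynomials
  let G : (Fin n × Fin n) → MvPolynomial (Fin n × Ix a b) ℂ := fun r =>
    if r.1 = r.2 then 1 else rename (fun t => (r.1, t)) f - rename (fun t => (r.2, t)) f
  let G0 : MvPolynomial (Fin n × Ix a b) ℂ := ∏ q : Fin n, rename (fun t => (q, t)) h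
  have hev : ∀ w : Fin n → Ix a b → ℂ, eval (fun p => w p.1 p.2) G0 = ∏ q, eval (w q) h := by
    intro w
    rw [map_prod]
    exact Finset.prod_congr rfl fun q _ => eval_ren w q h
  let K : Option (Fin n × Fin n) → MvPolynomial (Fin n × Ix a b) ℂ := fun r => r.elim G0 G
  obtain ⟨w1, hw1, hw1H⟩ := exists_tuple_countable (chart i j P) hJ K (fun k => by
    rcases k with _ | r
    · exact ⟨fun _ => z, fun _ => hz,
        ne_of_eq_of_ne (hev fun _ => z) (Finset.prod_ne_zero_iff.2 fun q _ => hzh ())⟩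
    · by_cases hr : r.1 = r.2
      · refine ⟨fun _ => z, fun _ => hz, ?_⟩
        simp only [K, Option.elim, G, if_pos hr, map_one]
        exact one_ne_zero
      · refine ⟨fun q => if q = r.1 then z' else z, fun q => ?_, ?_⟩
        · show ∀ g ∈ chart i j P, (eval (if q = r.1 then z' else z)) g = 0
          split_ifs
          · exact hz'
          · exact hz
        · simp only [K, Option.elim, G, if_neg hr]
          rw [map_sub]
          have e1 := eval_ren (fun q => if q = r.1 then z' else z) r.1 f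
          have e2 := eval_ren (fun q => if q = r.1 then z' else z) r.2 f
          rw [if_pos rfl] at e1
          rw [if_neg (fun h => hr h.symm)] at e2
          rw [e1, e2]
          exact sub_ne_zero.2 hzz)
  -- all of them in one polynomial
  refine ⟨∏ r, K r, ⟨w1, tuple_iff.2 hw1, ?_⟩, fun w hw hwH => ?_⟩
  · rw [map_prod]
    exact Finset.prod_ne_zero_iff.2 fun r _ => hw1H r
  have hK : ∀ r, eval (fun p => w p.1 p.2) (K r) ≠ 0 := by
    rw [map_prod] at hwH
    exact fun r => Finset.prod_ne_zero_iff.1 hwH r (Finset.mem_univ r)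
  refine ⟨fun q q' hqq => ?_, fun q => ?_⟩
  · by_contra hne
    have h1 := hK (some (q, q'))
    simp only [K, Option.elim, G, if_neg hne] at h1
    rw [map_sub, eval_ren w q f, eval_ren w q' f, hqq] at h1
    exact h1 (sub_self _)
  · refine hsm (w q) (tuple_iff.1 hw q) ?_
    have h3 := hK none
    rw [show K none = G0 from rfl, hev] at h3
    exact Finset.prod_ne_zero_iff.1 h3 q (Finset.mem_univ q)

/-- countably many families of conditions in one -/
theorem merge {P : Ideal (Co a b)} (hp : P.IsPrime) (hP : BHom P)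
    {i : Fin (a + 1)} {j : Fin (b + 1)} (hi : X (Sum.inl i) ∉ P) (hj : X (Sum.inr j) ∉ P)
    {n : ℕ} (H : ℕ → ℕ → MvPolynomial (Fin n × Ix a b) ℂ)
    (hH : ∀ u, ∃ w : Fin n → Ix a b → ℂ, Tuple i j P w ∧
      ∀ k, eval (fun p => w p.1 p.2) (H u k) ≠ 0) :
    ∃ G : ℕ → MvPolynomial (Fin n × Ix a b) ℂ,
      (∃ w : Fin n → Ix a b → ℂ, Tuple i j P w ∧ ∀ k, eval (fun p => w p.1 p.2) (G k) ≠ 0) ∧
      ∀ w : Fin n → Ix a b → ℂ, (∀ k, eval (fun p => w p.1 p.2) (G k) ≠ 0) →
        ∀ u k, eval (fun p => w p.1 p.2) (H u k) ≠ 0 := by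
  have hJ := chart_prime hp hP hi hj
  obtain ⟨w, hw1, hw2⟩ := exists_tuple_countable (chart i j P) hJ
    (fun t : ℕ => H t.unpair.1 t.unpair.2) (fun t => by
      obtain ⟨w, h1, h2⟩ := hH t.unpair.1
      exact ⟨w, tuple_iff.1 h1, h2 _⟩)
  refine ⟨fun t => H t.unpair.1 t.unpair.2, ⟨w, tuple_iff.2 hw1, hw2⟩, fun w hw u k => ?_⟩
  have := hw (Nat.pair u k)
  simp only [Nat.unpair_pair] at this
  exact this

end Pool.Agent.Y917.BS
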