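import Pool.Agent.TH266.NS.Main

/-!
# Asymptotic independence on triangles of arbitrary real slope `r ≥ 2`, for all `n ≥ 4 r`

The argument of `Pool.Agent.TH266.NS` for the weighted planes `P(1, 1, r)`, `r` an integer, works for
all real numbers `r ≥ 2`: the cubic `y ^ 2 = (1 + x) (x ^ 2 - t)` has weighted degree `2 r ≥ 3` if `x`
has weight `1` and `y` has weight `r`.
-/

set_option autoImplicit false

namespace Pool.Agent.Y917.BS

open Pool.Agent.TH603.EL Pool.Agent.TH880.NB Pool.Agent.TH176.Nag Pool.Agent.TH266.NS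

/-- the open triangle of slope `τ`, slightly shrunk -/
def TriR (r e τ : ℝ) : Set (ℤ × ℤ) :=
  {m | 0 ≤ m.2 ∧ -(2 * (e - 2 * r * m.2 - 1) * τ) < m.1 ∧
    (m.1 : ℝ) < 2 * (e - 2 * r * m.2 - 1) * (1 - τ)}

/-- the exponents of weighted degree at most `e + r - 2`, for the weights `1` and `r` -/
def WtdR (r e : ℝ) : Set (ℤ × ℤ) :=
  {m | 0 ≤ m.1 ∧ 0 ≤ m.2 ∧ (m.1 : ℝ) + r * m.2 ≤ e + r - 2}

section fij

variable {F : Type} [Field F]

/-- combinations of the monomials of weight at most `e` -/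
noncomputable def WW (x y : HR F) (r e : ℝ) : AddSubmonoid (HR F) :=
  AddSubmonoid.closure {f | ∃ (c : HK F) (a b : ℕ), (a : ℝ) + r * b ≤ e ∧
    f = incl c * (x ^ a * y ^ b)}

theorem WW_gen {x y : HR F} {r e : ℝ} (c : HK F) (a b : ℕ) (h : (a : ℝ) + r * b ≤ e) :
    incl c * (x ^ a * y ^ b) ∈ WW x y r e :=
  AddSubmonoid.subset_closure ⟨c, a, b, h, rfl⟩

theorem WW_mono {x y : HR F} {r e e' : ℝ} (h : e ≤ e') : WW x y r e ≤ WW x y r e' := by
  unfold WW
  refine AddSubmonoid.closure_mono ?_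
  rintro f ⟨c, a, b, h1, rfl⟩
  exact ⟨c, a, b, h1.trans h, rfl⟩

theorem WW_mul {x y : HR F} {r e e' : ℝ} {f g : HR F} (hf : f ∈ WW x y r e)
    (hg : g ∈ WW x y r e') : f * g ∈ WW x y r (e + e') := by
  unfold WW at hf
  induction hf using AddSubmonoid.closure_induction with
  | mem f hf =>
    obtain ⟨c, a, b, h1, rfl⟩ := hf
    unfold WW at hg
    induction hg using AddSubmonoid.closure_induction with
    | mem g hg =>
      obtain ⟨c', a', b', h2, rfl⟩ := hg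
      have e1 : incl c * (x ^ a * y ^ b) * (incl c' * (x ^ a' * y ^ b')) =
          incl (c * c') * (x ^ (a + a') * y ^ (b + b')) := by
        rw [map_mul, pow_add, pow_add]
        ring
      rw [e1]
      refine WW_gen _ _ _ ?_
      push_cast
      linarith
    | zero => rw [mul_zero]; exact zero_mem _
    | add g g' _ _ h h' => rw [mul_add]; exact add_mem h h'
  | zero => rw [zero_mul]; exact zero_mem _
  | add f f' _ _ h h' => rw [add_mul]; exact add_mem h h'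

theorem WW_one (x y : HR F) (r : ℝ) : (1 : HR F) ∈ WW x y r 0 := by
  have h := WW_gen (x := x) (y := y) (r := r) (e := 0) (1 : HK F) 0 0 (by simp)
  simpa using h

theorem WW_pow {x y : HR F} {r e : ℝ} {f : HR F} (hf : f ∈ WW x y r e) (n : ℕ) :
    f ^ n ∈ WW x y r (n * e) := by
  induction n with
  | zero => simpa using WW_one x y r
  | succ n ih =>
    rw [pow_succ]
    have h := WW_mul ih hf
    have e1 : (n : ℝ) * e + e = ((n + 1 : ℕ) : ℝ) * e := by push_cast; ring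
    rwa [e1] at h

theorem exists_of_WW {x y : HR F} {r e : ℝ} {f : HR F} (hf : f ∈ WW x y r e) :
    ∃ P : (ℤ × ℤ) →₀ HK F, (↑P.support : Set (ℤ × ℤ)) ⊆
      {m | 0 ≤ m.1 ∧ 0 ≤ m.2 ∧ (m.1 : ℝ) + r * m.2 ≤ e} ∧ evU x y P = f := by
  classical
  unfold WW at hf
  induction hf using AddSubmonoid.closure_induction with
  | mem f hf =>
    obtain ⟨c, a, b, h1, rfl⟩ := hf
    refine ⟨Finsupp.single ((a : ℤ), (b : ℤ)) c, ?_, ?_⟩
    · intro m hm
      have hm' := Finsupp.support_single_subset hm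
      rw [Finset.mem_singleton] at hm'
      subst hm'
      exact ⟨by simp, by simp, by simpa using h1⟩
    · rw [Fij.evU_single]
      simp
  | zero => exact ⟨0, by simp, by simp [evU]⟩
  | add f g _ _ h h' =>
    obtain ⟨P, hP, rfl⟩ := h
    obtain ⟨Q, hQ, rfl⟩ := h'
    refine ⟨P + Q, ?_, Fij.evU_add x y P Q⟩
    intro m hm
    rcases Finset.mem_union.1 (Finsupp.support_add hm) with h | h
    · exact hP h
    · exact hQ h

theorem hh_mem (x y : HR F) {r : ℝ} (hr : 2 ≤ r) : hh x y ∈ WW x y r (2 * r) := by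
  have e1 : hh x y = incl 1 * (x ^ 0 * y ^ 2) + incl (-1) * (x ^ 2 * y ^ 0) +
      incl (-1) * (x ^ 3 * y ^ 0) + incl (HahnSeries.single 1 1 : HK F) * (x ^ 0 * y ^ 0) +
      incl (HahnSeries.single 1 1 : HK F) * (x ^ 1 * y ^ 0) := by
    unfold hh
    rw [Fij.incl_t, map_neg, map_one]
    ring
  rw [e1]
  refine add_mem (add_mem (add_mem (add_mem ?_ ?_) ?_) ?_) ?_
  · exact WW_gen _ _ _ (by push_cast; linarith)
  · exact WW_gen _ _ _ (by push_cast; linarith)
  · exact WW_gen _ _ _ (by push_cast; linarith)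
  · exact WW_gen _ _ _ (by push_cast; linarith)
  · exact WW_gen _ _ _ (by push_cast; linarith)

theorem gg_mem (x y : HR F) {r : ℝ} (hr : 2 ≤ r) {E : ℕ} (a : ℕ → HK F) :
    gg x y (2 * E) a ∈ WW x y r (E + r - 2) := by
  unfold gg
  refine sum_mem fun m hm => ?_
  unfold EE at hm
  rw [Finset.mem_erase, Finset.mem_range] at hm
  obtain ⟨hm1, hm2⟩ := hm
  unfold bb
  split_ifs with h
  · have h1 := WW_gen (x := x) (y := y) (r := r) (e := E + r - 2) (a m) (m / 2) 0 (by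
      have : ((m / 2 : ℕ) : ℝ) ≤ E := by
        have : m / 2 ≤ E := by omega
        exact_mod_cast this
      simp only [Nat.cast_zero, mul_zero, add_zero]
      linarith)
    simpa using h1
  · have h0 : m % 2 = 1 := Nat.odd_iff.1 (Nat.not_even_iff_odd.1 h)
    have h1 := WW_gen (x := x) (y := y) (r := r) (e := E + r - 2) (a m) ((m - 3) / 2) 1 (by
      have : (m - 3) / 2 + 2 ≤ E := by omega
      have : (((m - 3) / 2 : ℕ) : ℝ) + 2 ≤ E := by exact_mod_cast this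
      simp only [Nat.cast_one, mul_one]
      linarith)
    simpa using h1

theorem exists_fij {τ s : ℝ} (T : Tube F τ s) (h0 : 0 < τ) (h1 : τ < 1)
    {r e : ℝ} (hr : 2 ≤ r) (he : 0 ≤ e) (hs : 2 * e < s) {m : ℤ × ℤ} (hm : m ∈ TriR r e τ)
    (hex : ∀ (M : ℕ), 1 ≤ M → ∀ i : ℤ, -((M : ℝ) * τ) < i → (i : ℝ) < M * (1 - τ) →
      ∃ a : ℕ → HK F, (∀ m ∈ EE M, Low (a m) (-(M : ℝ))) ∧ Low (gg T.x0 T.y0 M a) 0 ∧
      (gg T.x0 T.y0 M a).coeff 0 = AddMonoidAlgebra.single (i, 0) 1) :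
    ∃ P : (ℤ × ℤ) →₀ HK F, (↑P.support : Set (ℤ × ℤ)) ⊆ WtdR r e ∧ Low (evU T.x T.y P) 0 ∧
      (evU T.x T.y P).coeff 0 = AddMonoidAlgebra.single m 1 := by
  obtain ⟨i, j⟩ := m
  obtain ⟨hj, hl, hu⟩ := hm
  simp only at hj hl hu
  obtain ⟨k, rfl⟩ := Int.eq_ofNat_of_zero_le hj
  have hkk : (((k : ℕ) : ℤ) : ℝ) = k := by simp
  rw [hkk] at hl hu
  obtain ⟨ρ, hρ⟩ : ∃ ρ : ℝ, ρ = e - 2 * r * k := ⟨_, rfl⟩
  rw [← hρ] at hl hu
  have hpos : 0 < ρ - 1 := by nlinarith
  obtain ⟨E, hE⟩ : ∃ E : ℕ, E = ⌊ρ⌋₊ := ⟨_, rfl⟩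
  have hE1 : (E : ℝ) ≤ ρ := by
    rw [hE]
    exact Nat.floor_le (by linarith)
  have hE2 : ρ - 1 < E := by
    have := Nat.lt_floor_add_one ρ
    rw [hE]
    linarith
  have hE3 : 1 ≤ E := by
    have : (0 : ℝ) < E := by linarith
    exact_mod_cast this
  have hl' : -((2 * E : ℕ) * τ : ℝ) < i := by
    push_cast
    have : (ρ - 1) * τ < E * τ := mul_lt_mul_of_pos_right hE2 h0
    linarith
  have hu' : (i : ℝ) < (2 * E : ℕ) * (1 - τ) := by
    push_cast
    have : (ρ - 1) * (1 - τ) < E * (1 - τ) := mul_lt_mul_of_pos_right hE2 (by linarith)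
    linarith
  obtain ⟨a, ha1, ha2, ha3⟩ := hex (2 * E) (by omega) i hl' hu'
  have hs0 : (0 : ℝ) ≤ s := by linarith
  have hEe : (E : ℝ) ≤ e := by
    have : (0 : ℝ) ≤ 2 * r * k := by positivity
    linarith
  have hsM : 0 < s - 2 * (E : ℝ) := by linarith
  -- the sections
  have hG : Low (gg T.x T.y (2 * E) a - gg T.x0 T.y0 (2 * E) a) (s - 2 * (E : ℝ)) := by
    have e1 : gg T.x T.y (2 * E) a - gg T.x0 T.y0 (2 * E) a =
        ∑ m ∈ EE (2 * E), incl (a m) * (bb T.x T.y m - bb T.x0 T.y0 m) := by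
      unfold gg
      rw [← Finset.sum_sub_distrib]
      exact Finset.sum_congr rfl fun m _ => by ring
    rw [e1]
    refine Low.sum _ _ fun m hm => ?_
    have h2 := (ha1 m hm).incl.mul (Fij.low_bb_sub T hs0 m)
    refine h2.mono (le_of_eq ?_)
    push_cast
    ring
  have hG0 : Low (gg T.x T.y (2 * E) a) 0 := by
    have h2 := (hG.mono hsM.le).add ha2
    simpa using h2
  have hGc : (gg T.x T.y (2 * E) a).coeff 0 = AddMonoidAlgebra.single (i, 0) 1 := by
    have h2 : (gg T.x T.y (2 * E) a - gg T.x0 T.y0 (2 * E) a).coeff 0 = 0 := hG 0 hsM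
    rw [HahnSeries.coeff_sub, ha3, sub_eq_zero] at h2
    exact h2
  -- the equation
  obtain ⟨H, hH⟩ : ∃ H : HR F, H =
    incl (HahnSeries.single (-(1 + s)) (-1 : F)) * hh T.x T.y := ⟨_, rfl⟩
  have hu : Low (incl (HahnSeries.single (-(1 + s)) (-1 : F))) (-(1 + s)) :=
    (low_single (-(1 + s)) (-1 : F)).incl
  have hH0 : Low H 0 := by
    have h2 := hu.mul T.low_h
    rw [neg_add_cancel] at h2
    rwa [hH]
  have hHc : H.coeff 0 = AddMonoidAlgebra.single (0, 1) 1 := by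
    have h2 := hu.coeff_mul T.low_h
    rw [neg_add_cancel, Fij.incl_single, HahnSeries.coeff_single_same, T.lead_h,
      AddMonoidAlgebra.single_mul_single, ← Fij.incl_single, ← hH] at h2
    rw [h2]
    simp
  have hf0 : Low (H ^ k * gg T.x T.y (2 * E) a) 0 := by
    have h2 := (hH0.pow_zero' k).mul hG0
    rwa [add_zero] at h2
  have hpow : ∀ n : ℕ, (AddMonoidAlgebra.single ((0 : ℤ), (1 : ℤ)) (1 : F)) ^ n =
      AddMonoidAlgebra.single ((0 : ℤ), (n : ℤ)) (1 : F) := by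
    intro n
    rw [AddMonoidAlgebra.single_pow]
    simp
  have hfc : (H ^ k * gg T.x T.y (2 * E) a).coeff 0 =
      AddMonoidAlgebra.single (i, (k : ℤ)) 1 := by
    have h2 := (hH0.pow_zero' k).coeff_mul hG0
    have h3 := hH0.coeff_pow k
    rw [mul_zero] at h3
    rw [add_zero, h3, hHc, hGc, hpow, AddMonoidAlgebra.single_mul_single] at h2
    rw [h2]
    simp
  have hmem : H ^ k * gg T.x T.y (2 * E) a ∈ WW T.x T.y r (e + r - 2) := by
    have g1 : incl (HahnSeries.single (-(1 + s)) (-1 : F)) ∈ WW T.x T.y r 0 := by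
      have h2 := WW_gen (x := T.x) (y := T.y) (r := r) (e := 0)
        (HahnSeries.single (-(1 + s)) (-1 : F)) 0 0 (by simp)
      simpa using h2
    have g2 := WW_mul g1 (hh_mem T.x T.y hr)
    rw [← hH] at g2
    have g3 := WW_mul (WW_pow g2 k) (gg_mem T.x T.y hr (E := E) a)
    refine WW_mono ?_ g3
    linarith
  obtain ⟨P, hP1, hP2⟩ := exists_of_WW hmem
  refine ⟨P, hP1, ?_, ?_⟩
  · rw [hP2]; exact hf0
  · rw [hP2]; exact hfc

end fij

/-- the rank form of the key lemma -/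
theorem key {r : ℝ} (hr : 2 ≤ r) {τ : ℝ} (h0 : 0 < τ) (h1 : τ < 1 / 2) {n : ℕ} {w : Fin n → ℕ}
    {e : ℝ} (he : 0 ≤ e) {N : ℕ} (h : Rk w (TriR r e τ) N) : Rk w (WtdR r e) N := by
  obtain ⟨T, hTS, hTN, K, _, _, x, y, hx, hy, hE⟩ := h
  obtain ⟨s, hs⟩ : ∃ s : ℝ, s = 2 * e + 1 := ⟨_, rfl⟩
  have hs0 : 0 < s := by rw [hs]; positivity
  have hτ1 : τ < 1 := by linarith
  rw [← hTN]
  exact Rk_of_family (U := (Pool.Agent.TH793.NS.tube K h0 h1 hs0).x)
    (V := (Pool.Agent.TH793.NS.tube K h0 h1 hs0).y)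
    (fun hp hq => (Pool.Agent.TH793.NS.tube K h0 h1 hs0).point hp hq) hx hy T hE
    (S := WtdR r e) (fun m hm => ⟨hm.1, hm.2.1⟩) fun m hm =>
      exists_fij (Pool.Agent.TH793.NS.tube K h0 h1 hs0) h0 hτ1 hr he (by rw [hs]; linarith)
        (hTS hm) fun M hM i hi0 hi1 => exact_mono _ h0 hτ1 hM hi0 hi1

/-- from the key lemma at `τ` to the triangle of slope `r` -/
theorem step {r : ℝ} (hr : 2 ≤ r) {τ : ℝ} (h0 : 0 < τ) (h1 : τ < 1 / 2) {n : ℕ}
    (h : PA n (4 * r * τ) (4 * r * (1 - τ))) : PA n 0 r := by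
  unfold PA at h ⊢
  have hr0 : (0 : ℝ) < r := by linarith
  have e1 : (4 : ℝ) * r * τ + 4 * r * (1 - τ) = 2 ^ 2 * r := by ring
  rw [e1, Real.sqrt_mul (by norm_num), Real.sqrt_sq (by norm_num)] at h
  rw [zero_add]
  obtain ⟨B, hB⟩ : ∃ B : ℝ, B = √n * √r := ⟨_, rfl⟩
  have e2 : √(n : ℝ) * (2 * √(r : ℝ)) = 2 * B := by rw [hB]; ring
  rw [e2] at h
  rw [← hB]
  have hB0 : 0 ≤ B := by rw [hB]; positivity
  intro η hη
  obtain ⟨s1, hs1⟩ := h η hη
  obtain ⟨s2, hs2⟩ := exists_large (η := η) (c := 2 * r + 1) hη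
  refine ⟨max s1 s2, fun s hs α => ?_⟩
  have hs1' := hs1 s ((le_max_left _ _).trans hs)
  have hs2' := hs2 s ((le_max_right _ _).trans hs)
  have hBs : 0 ≤ B * s := mul_nonneg hB0 (Nat.cast_nonneg s)
  obtain ⟨e, he⟩ : ∃ e : ℝ, e = (B + η) * s - r + 1 := ⟨_, rfl⟩
  have he0 : 0 ≤ e := by
    rw [he]
    have : (B + η) * s = B * s + η * s := by ring
    linarith
  have hW : Rk (fun _ : Fin n => s) (WtdR r e) (n * (s + 1).choose 2) := by
    refine key hr h0 h1 he0 ?_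
    refine (hs1' (-(2 * (e - 1) * τ) + 1 / 2)).mono ?_
    rintro m ⟨g1, g2, g3⟩
    refine ⟨g1, ?_, ?_⟩
    · have e3 : -(2 * (e - 2 * r * m.2 - 1) * τ) = -(2 * (e - 1) * τ) + 4 * r * τ * m.2 := by ring
      rw [e3]
      linarith
    · have e3 : 2 * (e - 2 * r * m.2 - 1) * (1 - τ) =
          -(2 * (e - 1) * τ) + 2 * (e - 1) - 4 * r * (1 - τ) * m.2 := by ring
      rw [e3]
      have e5 : 2 * ((B + η) * s) = (2 * B + η) * s + η * s := by ring
      have e6 : 2 * e = 2 * ((B + η) * s) - 2 * r + 2 := by rw [he]; ring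
      linarith
  refine hW.image 1 0 0 1 ⌈α⌉ 0 (by norm_num) ?_
  rintro ⟨a, b⟩ ⟨g1, g2, g3⟩
  simp only at g1 g2 g3
  have hc1 : α ≤ ⌈α⌉ := Int.le_ceil α
  have hc2 : (⌈α⌉ : ℝ) < α + 1 := Int.ceil_lt_add_one α
  have ha : (0 : ℝ) ≤ a := by exact_mod_cast g1
  refine ⟨?_, ?_, ?_⟩
  · simp only
    linarith
  · simp only
    push_cast
    linarith
  · simp only
    push_cast
    linarith

/-- **asymptotic independence of `n ≥ 4 r` points on triangles of slope `r`, for all real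
`r ≥ 2`** -/
theorem PA_real {r : ℝ} (hr2 : 2 ≤ r) {n : ℕ} (hn' : 4 * r ≤ n) : PA n 0 r := by
  have hr0 : (0 : ℝ) < r := by linarith
  have hn0 : (0 : ℝ) < n := by linarith
  obtain ⟨q, hq⟩ : ∃ q : ℝ, q = 2 * √((r : ℝ) * n) := ⟨_, rfl⟩
  have hq2 : q * q = 4 * (r * n) := by
    rw [hq]
    have := Real.mul_self_sqrt (show (0 : ℝ) ≤ r * n by positivity)
    linear_combination 4 * this
  have hq0 : 0 < q := by
    rw [hq]
    positivity
  have hq4 : 4 * r ≤ q := by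
    by_contra hc
    push Not at hc
    nlinarith
  obtain ⟨v, hv⟩ : ∃ v : ℤ, v = ⌈q⌉ - 1 := ⟨_, rfl⟩
  have hv1 : (v : ℝ) < q := by
    rw [hv]
    push_cast
    have := Int.ceil_lt_add_one q
    linarith
  have hv2 : q - v ≤ 1 := by
    rw [hv]
    push_cast
    have := Int.le_ceil q
    linarith
  obtain ⟨τ, hτ⟩ : ∃ τ : ℝ, τ = (q - v) / (4 * r) := ⟨_, rfl⟩
  have hτm : 4 * r * τ = q - v := by
    rw [hτ]
    field_simp
  have hτ0 : 0 < τ := by
    rw [hτ]
    have : 0 < q - v := by linarith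
    positivity
  have hτ1 : τ < 1 / 2 := by
    by_contra hc
    push Not at hc
    nlinarith
  refine step hr2 hτ0 hτ1 ?_
  have hn1 : 1 ≤ n := by
    have : (0 : ℝ) < n := hn0
    exact_mod_cast this
  have e1 : 4 * (r : ℝ) * (1 - τ) = 4 * r - (q - v) := by
    rw [← hτm]; ring
  rw [hτm, e1]
  refine (PA.closed hn1).stepA 1 v isCoprime_one_left (by norm_num) ?_ ?_ ?_ ?_
  · push_cast
    linarith
  · push_cast
    linarith
  · linarith
  · have e2 : ((1 : ℤ) : ℝ) * (((1 : ℤ) : ℝ) * (q - v) + v) = q := by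
      push_cast
      ring
    have e3 : ((v : ℝ) - ((1 : ℤ) : ℝ) * (4 * r - (q - v))) * (((1 : ℤ) : ℝ) * (q - v) + v) /
        ((q - v) + (4 * r - (q - v))) = n - q := by
      have e4 : ((q - v) + (4 * r - (q - v)) : ℝ) = 4 * r := by ring
      rw [e4, div_eq_iff (by positivity)]
      push_cast
      linear_combination hq2
    rw [e2, e3]
    unfold PA
    have e5 : q + (n - q) = (n : ℝ) := by ring
    have hq_le : q ≤ n := by
      by_contra hc
      push Not at hc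
      nlinarith
    rw [e5, Real.mul_self_sqrt hn0.le]
    exact AS.base n hq0.le (by linarith) e5

end Pool.Agent.Y917.BS
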