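import Pool.Agent.TH306.N4.Num

/-! Numerics: for all large `m` the rows of a graded system contain a large toric triangle. -/

set_option autoImplicit false

namespace Pool.Agent.Y917.BS

open Pool.Agent.TH880.NB Pool.Agent.TH176.Nag

/-- for all large `m` the rows contain a set of monomials on which `n` points of multiplicity
`s ≥ (√(δ / n) - ε) m` impose independent conditions -/
theorem num {N : ℕ → ℕ} {k : ℕ} {r δ : ℝ} (hk : 1 ≤ k) (hδ : 0 < δ) (hr : r = (k : ℝ) ^ 2 * δ)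
    (hN : ∀ η : ℝ, 0 < η → ∃ m₀ : ℕ, ∀ m : ℕ, m₀ ≤ m → (k * δ - η) * m ≤ N m)
    {n : ℕ} (hn : 1 ≤ n) (hPA : PA n 0 r) {ε : ℝ} (hε : 0 < ε) :
    ∃ m₁ : ℕ, ∀ m : ℕ, m₁ ≤ m → ∃ (s : ℕ) (T : Finset (ℤ × ℤ)), 2 ≤ s ∧
      (√(δ / n) - ε) * m ≤ s ∧
      T.card = n * (s + 1).choose 2 ∧ Emp (fun _ : Fin n => s) (T : Set (ℤ × ℤ)) ∧
      ∀ p ∈ T, 0 ≤ p.1 ∧ 0 ≤ p.2 ∧ (k : ℤ) * p.2 ≤ m ∧ p.1 < N (m - k * p.2.toNat) := by
  have hk0 : (0 : ℝ) < k := by exact_mod_cast hk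
  have hn0 : (0 : ℝ) < n := by exact_mod_cast hn
  have hqn : 0 < √(n : ℝ) := Real.sqrt_pos.2 hn0
  have hqδ : 0 < √δ := Real.sqrt_pos.2 hδ
  have hδδ : √δ * √δ = δ := Real.mul_self_sqrt hδ.le
  have hqr : √(0 + r) = k * √δ := by
    rw [zero_add, hr, Real.sqrt_mul (by positivity), Real.sqrt_sq hk0.le]
  have hq : √(δ / n) = √δ / √(n : ℝ) := Real.sqrt_div hδ.le _
  obtain ⟨c, hc⟩ : ∃ c : ℝ, c = √(δ / n) := ⟨_, rfl⟩
  have hc0 : 0 < c := by rw [hc, hq]; positivity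
  -- `θ` with `(1 - θ) / (1 + θ) ≥ 1 - 2 θ`
  obtain ⟨θ, hθ⟩ : ∃ θ : ℝ, θ = min (1 / 4) (ε / (4 * c)) := ⟨_, rfl⟩
  have hθ0 : 0 < θ := by rw [hθ]; exact lt_min (by norm_num) (by positivity)
  have hθ4 : θ ≤ 1 / 4 := by rw [hθ]; exact min_le_left _ _
  have hθε : 4 * c * θ ≤ ε := by
    have h1 : θ ≤ ε / (4 * c) := by rw [hθ]; exact min_le_right _ _
    rw [le_div_iff₀ (by positivity)] at h1
    linarith
  obtain ⟨η, hη⟩ : ∃ η : ℝ, η = k * δ * θ := ⟨_, rfl⟩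
  have hη0 : 0 < η := by rw [hη]; positivity
  obtain ⟨m₀, hm₀⟩ := hN η hη0
  unfold PA at hPA
  rw [hqr] at hPA
  obtain ⟨s1, hs1⟩ := hPA (√n * (k * √δ) * θ) (by positivity)
  obtain ⟨E, hE⟩ : ∃ E : ℝ, E = √n * (k * √δ) + √n * (k * √δ) * θ := ⟨_, rfl⟩
  have hE0 : 0 < E := by rw [hE]; positivity
  have hkδ : 0 < k * δ - η := by
    rw [hη, show k * δ - k * δ * θ = k * δ * (1 - θ) by ring]
    have : 0 < 1 - θ := by linarith
    positivity
  -- the ratio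
  have hrat : (k * δ - η) / E = c * ((1 - θ) / (1 + θ)) := by
    have h1 : 0 < 1 + θ := by linarith
    rw [hE, hη, hc, hq, div_eq_iff (by positivity)]
    have h2 : √δ / √(n : ℝ) * ((1 - θ) / (1 + θ)) * (√n * (k * √δ) + √n * (k * √δ) * θ) =
        k * (√δ * √δ) * (1 - θ) := by
      field_simp
    rw [h2, hδδ]
    ring
  have hrat2 : c - ε / 2 ≤ (k * δ - η) / E := by
    rw [hrat]
    have h1 : 0 < 1 + θ := by linarith
    have h2 : 1 - 2 * θ ≤ (1 - θ) / (1 + θ) := by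
      rw [le_div_iff₀ h1]
      nlinarith
    have h3 := mul_le_mul_of_nonneg_left h2 hc0.le
    nlinarith
  obtain ⟨m2, hm2⟩ := exists_nat_ge ((E * (s1 + 3)) / (k * δ - η))
  obtain ⟨m3, hm3⟩ := exists_nat_ge (2 / ε)
  obtain ⟨m4, hm4⟩ := exists_nat_ge (k * δ * m₀ / η)
  refine ⟨max (max m2 m3) m4, fun m hm => ?_⟩
  have hm2' : (E * (s1 + 3)) / (k * δ - η) ≤ m :=
    hm2.trans (by exact_mod_cast (le_max_left _ _).trans ((le_max_left _ _).trans hm))
  have hm3' : 2 / ε ≤ m :=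
    hm3.trans (by exact_mod_cast (le_max_right _ _).trans ((le_max_left _ _).trans hm))
  have hm4' : k * δ * m₀ / η ≤ m :=
    hm4.trans (by exact_mod_cast (le_max_right _ _).trans hm)
  have hm0 : (0 : ℝ) ≤ m := Nat.cast_nonneg m
  obtain ⟨z, hz⟩ : ∃ z : ℝ, z = (k * δ - η) * m / E := ⟨_, rfl⟩
  have hz3 : (s1 : ℝ) + 3 ≤ z := by
    rw [div_le_iff₀ hkδ] at hm2'
    rw [hz, le_div_iff₀ hE0]
    linarith
  have hzE : z * E = (k * δ - η) * m := by rw [hz]; field_simp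
  obtain ⟨s, hs⟩ : ∃ s : ℕ, s = ⌈z⌉₊ - 1 := ⟨_, rfl⟩
  have hz0 : 0 < z := by
    have : (0 : ℝ) ≤ s1 := Nat.cast_nonneg _
    linarith
  have hceil1 : 1 ≤ ⌈z⌉₊ := Nat.one_le_ceil_iff.2 hz0
  have hsr : (s : ℝ) = (⌈z⌉₊ : ℝ) - 1 := by
    rw [hs, Nat.cast_sub hceil1, Nat.cast_one]
  have hslt : (s : ℝ) < z := by
    have := Nat.ceil_lt_add_one hz0.le
    rw [hsr]
    linarith
  have hsge : z - 1 ≤ s := by
    have := Nat.le_ceil z
    rw [hsr]
    linarith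
  have hs1s : s1 ≤ s := by
    have : (s1 : ℝ) ≤ s := by linarith
    exact_mod_cast this
  have hs2 : 2 ≤ s := by
    have h0 : (0 : ℝ) ≤ s1 := Nat.cast_nonneg _
    have : ((2 : ℕ) : ℝ) ≤ s := by push_cast; linarith
    exact_mod_cast this
  obtain ⟨B, hB⟩ : ∃ B : ℝ, B = E * s := ⟨_, rfl⟩
  have hB0 : 0 ≤ B := by rw [hB]; positivity
  have hm1 : B < (k * δ - η) * m := by
    rw [hB, ← hzE, mul_comm]
    exact mul_lt_mul_of_pos_right hslt hE0
  have hs1' := hs1 s hs1s 0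
  obtain ⟨T, hTS, hTN, hT⟩ := hs1'
  refine ⟨s, T, hs2, ?_, hTN, hT, ?_⟩
  · have h1 : (c - ε / 2) * m ≤ z := by
      rw [hz, mul_div_right_comm]
      exact mul_le_mul_of_nonneg_right hrat2 hm0
    have h2 : 1 ≤ ε / 2 * m := by
      rw [div_le_iff₀ hε] at hm3'
      linarith
    rw [← hc]
    linarith
  · intro p hp
    obtain ⟨h1, h2, h3⟩ := hTS hp
    rw [zero_mul, add_zero] at h2
    rw [zero_add, ← hE, ← hB] at h3
    have hp1 : 0 ≤ p.1 := by exact_mod_cast h2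
    have h3' : (p.1 : ℝ) ≤ B - r * (p.2 : ℝ) := h3
    obtain ⟨l, hl⟩ : ∃ l : ℕ, (l : ℤ) = p.2 := ⟨p.2.toNat, Int.toNat_of_nonneg h1⟩
    have hl' : p.2.toNat = l := by omega
    have hlr : ((p.2 : ℤ) : ℝ) = l := by rw [← hl]; push_cast; rfl
    rw [hlr] at h3'
    have hp1r : (0 : ℝ) ≤ p.1 := by exact_mod_cast hp1
    have h4 : k * δ * (k * l : ℝ) ≤ B := by
      have h40 : r * l ≤ B := by linarith
      rw [hr] at h40
      have h41 : k * δ * (k * l : ℝ) = (k : ℝ) ^ 2 * δ * l := by ring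
      rw [h41]
      exact h40
    have h5 : k * δ * (k * l : ℝ) ≤ k * δ * m - η * m := by
      have : (k * δ - η) * m = k * δ * m - η * m := by ring
      linarith
    have hηm : 0 ≤ η * m := by positivity
    have h6 : (k * l : ℝ) ≤ m := by
      have h60 : k * δ * (k * l : ℝ) ≤ k * δ * m := by linarith
      exact le_of_mul_le_mul_left h60 (by positivity)
    have h7 : k * l ≤ m := by exact_mod_cast h6
    have h8 : (m₀ : ℝ) ≤ m - k * l := by
      have h9 : k * δ * m₀ ≤ η * m := by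
        rw [div_le_iff₀ hη0] at hm4'
        linarith
      have h10 : k * δ * (m₀ : ℝ) ≤ k * δ * (m - k * l) := by
        have h100 : k * δ * ((m : ℝ) - k * l) = k * δ * m - k * δ * (k * l) := by ring
        rw [h100]
        linarith
      exact le_of_mul_le_mul_left h10 (by positivity)
    have h9 : m₀ ≤ m - k * l := by
      have : ((m₀ + k * l : ℕ) : ℝ) ≤ m := by push_cast; linarith
      have : m₀ + k * l ≤ m := by exact_mod_cast this
      omega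
    have h10 := hm₀ _ h9
    have h11 : ((m - k * l : ℕ) : ℝ) = m - k * l := by
      rw [Nat.cast_sub h7]; push_cast; ring
    rw [h11] at h10
    refine ⟨hp1, h1, ?_, ?_⟩
    · rw [← hl]; exact_mod_cast h7
    · rw [hl']
      have h12 : (p.1 : ℝ) < N (m - k * l) := by
        refine lt_of_lt_of_le ?_ h10
        have h13 : r * l = k * δ * (k * l) := by rw [hr]; ring
        have h14 : 0 ≤ η * (k * l : ℝ) := by positivity
        have h15 : (k * δ - η) * ((m : ℝ) - k * l) =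
            (k * δ - η) * m - k * δ * (k * l) + η * (k * l) := by ring
        rw [h15]
        linarith
      exact_mod_cast h12

end Pool.Agent.Y917.BS
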