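import Pool.Agent.TH471.N4.S1

/-!
# The pencil, in a degree divisible by a given number
-/

set_option autoImplicit false

open MvPolynomial Module

namespace Pool.Agent.Y917.BS

open Pool.Agent.TH871.N4 Pool.Agent.TH471.N4

section abs

variable {F K ι : Type*} [Field F] [IsAlgClosed F] [CharZero F] [Field K] [Algebra F K]
  {v : ι → K → ℤ} {c : ι → ℤ} {R : ℕ → Submodule F K}

/-- the pencil, abstractly; its degree is divisible by `m` -/
theorem exists_pencil (h : DivSys F v c R) {m : ℕ} (hm : 1 ≤ m) {a b b' : K} (ha : a ∈ R m)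
    (hb : b ∈ R m) (hb' : b' ∈ R m) (ha0 : a ≠ 0)
    (hind : AlgebraicIndependent F ![b / a, b' / a])
    (hfd : ∀ h0 h1 : K, AlgebraicIndependent F ![h0, h1] →
      FiniteDimensional (IntermediateField.adjoin F ({h0, h1} : Set K)) K) :
    ∃ k : ℕ, 1 ≤ k ∧ m ∣ k ∧ ∃ g₁ g₂ : K, g₁ ∈ R k ∧ g₂ ∈ R k ∧ g₁ ≠ 0 ∧ g₂ ≠ 0 ∧
      (∀ (m' n : ℕ) (ψ : K), g₁ * ψ ∈ R (m' + k) → g₂ ^ n * ψ ∈ R (m' + n * k) → ψ ∈ R m') ∧
      Transcendental F (g₁ / g₂) ∧
      ∀ z : K, IsAlgebraic (IntermediateField.adjoin F {g₁ / g₂}) z →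
        z ∈ IntermediateField.adjoin F {g₁ / g₂} := by
  classical
  have : Infinite F := IsAlgClosed.instInfinite
  obtain ⟨k, hk, ⟨q, hq⟩, hav⟩ := h.exists_degree hm ha0 ha
  have hq1 : 1 ≤ q := by
    rcases Nat.eq_zero_or_pos q with rfl | hq'
    · omega
    · exact hq'
  set a1 : K := a ^ q with ha1
  have ha10 : a1 ≠ 0 := pow_ne_zero _ ha0
  have ha1R : a1 ∈ R k := by
    have := h.pow ha q
    rwa [mul_comm, ← hq] at this
  have hmulR : ∀ x ∈ R m, x * a ^ (q - 1) ∈ R k := by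
    intro x hx
    have h1 := h.mul hx (h.pow ha (q - 1))
    have h2 : m + (q - 1) * m = k := by
      rw [hq]
      obtain ⟨r, rfl⟩ := Nat.exists_eq_add_of_le hq1
      rw [Nat.add_sub_cancel_left]
      ring
    rwa [h2] at h1
  have hdiv : ∀ x : K, x * a ^ (q - 1) / a1 = x / a := by
    intro x
    rw [ha1]
    obtain ⟨r, rfl⟩ := Nat.exists_eq_add_of_le hq1
    rw [Nat.add_sub_cancel_left, add_comm 1 r, pow_succ]
    field_simp
  -- the finite set of places
  have hTfin : {i | v i a1 + k * c i ≠ 0}.Finite := by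
    refine ((h.fin a1 ha10).union h.finc).subset fun i hi => ?_
    by_contra hcon
    rw [Set.mem_union, not_or] at hcon
    have h1 : v i a1 = 0 := not_not.1 hcon.1
    have h2 : c i = 0 := not_not.1 hcon.2
    apply hi
    rw [h1, h2, mul_zero, add_zero]
  set T : Finset ι := hTfin.toFinset.filter (fun i => ¬ DivSys.St v c R i) with hT
  obtain ⟨b0, hb0R, hb0⟩ := h.exists_general T (k := k) (fun i hi => by
    rw [hT, Finset.mem_filter] at hi
    exact hav i hi.2)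
  have hb0van : ∀ i ∈ T, b0 ∉ h.van i k := fun i hi => (not_van_iff h hb0R).2 (hb0 i hi)
  have hβtr : Transcendental F (b / a) := (indep_two.1 hind).1
  -- make `b0 / a1` transcendental
  obtain ⟨b0', hb0'R, hb0'van, hb0'tr⟩ : ∃ b0' ∈ R k, (∀ i ∈ T, b0' ∉ h.van i k) ∧
      Transcendental F (b0' / a1) := by
    by_cases htr : Transcendental F (b0 / a1)
    · exact ⟨b0, hb0R, hb0van, htr⟩
    · have halg : IsAlgebraic F (b0 / a1) := not_not.1 htr
      obtain ⟨r, hr⟩ := mem_range_of_alg halg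
      have hβR : b * a ^ (q - 1) ∈ R k := hmulR b hb
      have hbad := finite_bad h (T : Set ι) T.finite_toSet hb0R hβR
        (fun i hi hc => hb0van i hi hc.1)
      obtain ⟨t, ht⟩ := (hbad.union (Set.finite_singleton (0 : F))).infinite_compl.nonempty
      rw [Set.mem_compl_iff, Set.mem_union, not_or] at ht
      have ht0 : t ≠ 0 := ht.2
      refine ⟨b0 + t • (b * a ^ (q - 1)), (R k).add_mem hb0R ((R k).smul_mem t hβR),
        fun i hi hc => ht.1 ⟨i, hi, hc⟩, ?_⟩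
      have h1 : (b0 + t • (b * a ^ (q - 1))) / a1 = algebraMap F K r + t • (b / a) := by
        rw [add_div, ← hr, smul_div_assoc, hdiv]
      rw [h1]
      intro halg'
      apply hβtr
      have h2 : b / a = algebraMap F K t⁻¹ *
          ((algebraMap F K r + t • (b / a)) - algebraMap F K r) := by
        rw [add_sub_cancel_left, Algebra.smul_def, ← mul_assoc, ← map_mul, inv_mul_cancel₀ ht0,
          map_one, one_mul]
      rw [h2]
      exact (isAlgebraic_algebraMap _).mul (halg'.sub (isAlgebraic_algebraMap _))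
  -- the second section
  obtain ⟨b1, hb1R, hb1ind⟩ : ∃ b1 ∈ R k, AlgebraicIndependent F ![b0' / a1, b1 / a1] := by
    rcases exists_indep hind hb0'tr with h1 | h1
    · exact ⟨_, hmulR b hb, by rw [hdiv]; exact h1⟩
    · exact ⟨_, hmulR b' hb', by rw [hdiv]; exact h1⟩
  -- the scalar
  have hbad1 := finite_bad h (T : Set ι) T.finite_toSet hb0'R hb1R
    (fun i hi hc => hb0'van i hi hc.1)
  have hbad2 := Pool.Agent.TH147.N4.ac hb1ind (hfd _ _ hb1ind)
  obtain ⟨t, ht⟩ := (hbad1.union hbad2).infinite_compl.nonempty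
  rw [Set.mem_compl_iff, Set.mem_union, not_or] at ht
  obtain ⟨ht1, ht2⟩ := ht
  have hg1R : b0' + t • b1 ∈ R k := (R k).add_mem hb0'R ((R k).smul_mem t hb1R)
  have hratio : (b0' + t • b1) / a1 = b0' / a1 + t • (b1 / a1) := by
    rw [add_div, smul_div_assoc]
  have htrans : Transcendental F ((b0' + t • b1) / a1) := by
    rw [hratio]
    exact trans_of_indep hb1ind t
  have hg10 : b0' + t • b1 ≠ 0 := by
    intro h0
    rw [h0, zero_div] at htrans
    exact htrans isAlgebraic_zero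
  refine ⟨k, hk, ⟨q, hq⟩, b0' + t • b1, a1, hg1R, ha1R, hg10, ha10, ?_, htrans, ?_⟩
  · intro m' n ψ h1 h2
    refine h.sat hk hg10 ha10 hg1R (fun i hi hpos => ?_) h1 h2
    by_contra hne
    have hiT : i ∈ T := by
      rw [hT, Finset.mem_filter]
      exact ⟨hTfin.mem_toFinset.2 hne, hi⟩
    have h3 : b0' + t • b1 ∉ h.van i k := fun hc => ht1 ⟨i, hiT, hc⟩
    have h4 := ((not_van_iff h hg1R).1 h3).2
    omega
  · intro z hz
    by_contra hz'
    rw [hratio] at hz hz'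
    exact ht2 ⟨z, hz, hz'⟩

end abs

open Pool.Agent.TH279.GR Pool.Agent.TH306.N4

/-- the pencil, in a degree divisible by `N` -/
theorem pencil {a b : ℕ} {P : Ideal (Co a b)} {α β γ : ℕ} (hS : Surf P α β γ) (hN : Normal P)
    {i : Fin (a + 1)} {j : Fin (b + 1)} {FF : Type} [Field FF] [Algebra ℂ FF]
    {π : Co a b →ₐ[ℂ] FF} (hM : Mod P i j π)
    (hgrow : ∃ c : ℝ, 0 < c ∧ ∃ m₀ : ℕ, ∀ m, m₀ ≤ m → c * (m : ℝ) ^ 2 ≤ finrank ℂ (SecM π m))
    {N : ℕ} (hN1 : 1 ≤ N) : ∃ (k : ℕ) (g₁ g₂ : FF), N ∣ k ∧ Pencil π k g₁ g₂ := by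
  obtain ⟨m, hm, ψ₀, ψ₁, ψ₂, h0, h1, h2, hne, hind⟩ := t5 hS hM hgrow
  have h := divSys hM hN
  rw [sec_iff] at h0 h1 h2
  have hp : ∀ x ∈ R ℂ (xx π) (yy π) m, x * ψ₀ ^ (N - 1) ∈ R ℂ (xx π) (yy π) (N * m) := by
    intro x hx
    have h3 := h.mul hx (h.pow h0 (N - 1))
    have h4 : m + (N - 1) * m = N * m := by
      obtain ⟨r, rfl⟩ := Nat.exists_eq_add_of_le hN1
      rw [Nat.add_sub_cancel_left]
      ring
    rwa [h4] at h3
  have hdiv : ∀ x : FF, x * ψ₀ ^ (N - 1) / (ψ₀ * ψ₀ ^ (N - 1)) = x / ψ₀ := by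
    intro x
    have := pow_ne_zero (N - 1) hne
    field_simp
  obtain ⟨k, hk, hmk, g₁, g₂, hg1, hg2, hg10, hg20, hsat, htr, hcl⟩ :=
    exists_pencil h (m := N * m) (Nat.mul_pos hN1 hm) (hp _ h0) (hp _ h1) (hp _ h2)
      (mul_ne_zero hne (pow_ne_zero _ hne)) (by rw [hdiv, hdiv]; exact hind)
      (fun x y hxy => finDim hS hM x y hxy)
  refine ⟨k, g₁, g₂, (Dvd.intro _ rfl).trans hmk, hk, (sec_iff _ _ _).2 hg1, (sec_iff _ _ _).2 hg2,
    hg10, hg20, ?_, htr, hcl⟩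
  rintro m' ψ h3 ⟨N', h4⟩
  rw [sec_iff] at h3 h4 ⊢
  refine hsat m' N' ψ h3 ?_
  rwa [mul_comm N' k]

end Pool.Agent.Y917.BS
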