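import Pool.Agent.TH306.N4.AllZ
import Pool.Agent.Y917.BS.Num
import Pool.Agent.Y917.BS.Key
import Pool.Agent.Y917.BS.Pen
import Pool.Agent.Y917.BS.Cur

/-!
# Separation of jets at very general points by the multiples of an arbitrary divisor

`L = A - B` is any divisor on the normal surface `X` and `δ > 0` a real number with
`2 h⁰(m L) ≥ (δ - ε) m ^ 2` for large `m`. If `n` is large, then at `n` very general points the
sections of `m L` separate the jets of order `(√(δ / n) - ε) m`.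
-/

set_option autoImplicit false

open MvPolynomial Module Filter Topology

namespace Pool.Agent.Y917.BS

open Pool.Agent.TH279.GR Pool.Agent.TH306.N4 Pool.Agent.TH880.NB

variable {a b : ℕ}

/-- the sections of the multiples of `L` separate jets of the order `(c - ε) m` at `w` -/
def JetsGE (P : Ideal (Co a b)) (i : Fin (a + 1)) (j : Fin (b + 1)) {FF : Type} [Field FF]
    [Algebra ℂ FF] (π : Co a b →ₐ[ℂ] FF) {n : ℕ} (c : ℝ) (w : Fin n → Ix a b → ℂ) : Prop :=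
  ∀ ε : ℝ, 0 < ε → ∃ m₁ : ℕ, ∀ m, m₁ ≤ m → ∃ s : ℕ, 2 ≤ s ∧ (c - ε) * m ≤ s ∧
    SepV (chart i j P) (fun F => Sec π m (π F)) s w

theorem low {P : Ideal (Co a b)} {α β γ : ℕ} (hX : Surf P α β γ) (hN : Normal P)
    {i : Fin (a + 1)} {j : Fin (b + 1)} (hi : X (Sum.inl i) ∉ P) (hj : X (Sum.inr j) ∉ P)
    {FF : Type} [Field FF] [Algebra ℂ FF] {π : Co a b →ₐ[ℂ] FF} (hπ : Mod P i j π)
    (hfin : ∀ m, FiniteDimensional ℂ (SecM π m)) {δ : ℝ} (hδ : 0 < δ)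
    (hgr : ∀ ε : ℝ, 0 < ε → ∃ m₀ : ℕ, ∀ m, m₀ ≤ m →
      (δ - ε) * (m : ℝ) ^ 2 ≤ 2 * finrank ℂ (SecM π m)) :
    ∃ n₀ : ℕ, ∀ n, n₀ ≤ n →
      ∃ H : ℕ → MvPolynomial (Fin n × Ix a b) ℂ,
        (∃ w : Fin n → Ix a b → ℂ, Tuple i j P w ∧ ∀ k, eval (fun p => w p.1 p.2) (H k) ≠ 0) ∧
        ∀ w : Fin n → Ix a b → ℂ, Tuple i j P w →
          (∀ k, eval (fun p => w p.1 p.2) (H k) ≠ 0) →
          Function.Injective w ∧ JetsGE P i j π (√(δ / n)) w := by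
  obtain ⟨N', hN'⟩ := exists_nat_ge (2 / δ)
  obtain ⟨N, hN0⟩ : ∃ N : ℕ, N = N' + 1 := ⟨_, rfl⟩
  have hN1 : 1 ≤ N := by omega
  obtain ⟨k, g₁, g₂, hNk, hP⟩ := pencil hX hN hπ (by
    obtain ⟨m₀, hm₀⟩ := hgr (δ / 2) (by positivity)
    refine ⟨δ / 4, by positivity, m₀, fun m hm => ?_⟩
    have := hm₀ m hm
    linarith) hN1
  have hrk := Pool.Agent.TH13.N4.s3 a b P α β γ hX i j FF π hπ hfin δ hδ hgr k g₁ g₂ hP
  have hk := hP.hk
  have hk0 : (0 : ℝ) < k := by exact_mod_cast hk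
  -- the slope
  obtain ⟨r, hr⟩ : ∃ r : ℝ, r = (k : ℝ) ^ 2 * δ := ⟨_, rfl⟩
  have hr2 : 2 ≤ r := by
    have h1 : N ≤ k := Nat.le_of_dvd hk hNk
    have h2 : (N' : ℝ) ≤ k := by
      have : N' ≤ k := by omega
      exact_mod_cast this
    have h3 : 2 / δ ≤ k := hN'.trans h2
    rw [div_le_iff₀ hδ] at h3
    have h4 : (1 : ℝ) ≤ k := by exact_mod_cast hk
    have h5 : (k : ℝ) * δ ≤ k ^ 2 * δ := by
      have : (k : ℝ) ≤ k ^ 2 := by nlinarith
      exact mul_le_mul_of_nonneg_right this hδ.le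
    rw [hr]
    linarith
  refine ⟨⌈4 * r⌉₊, fun n hn => ?_⟩
  have hn4 : 4 * r ≤ n := (Nat.le_ceil _).trans (by exact_mod_cast hn)
  have hn1 : 1 ≤ n := by
    have : (0 : ℝ) < n := by linarith
    exact_mod_cast this
  have hPAn : PA n 0 r := PA_real hr2 hn4
  choose m₁ hm₁ using fun κ : ℕ =>
    num hk hδ hr hrk hn1 hPAn (ε := 1 / ((κ : ℝ) + 1)) (by positivity)
  choose s T hs hsm hTc hTE hT using fun (κ : ℕ) (m : ℕ) => hm₁ κ (m₁ κ + m) (Nat.le_add_right _ _)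
  have h0 := Pool.Agent.TH880.N4.s0
  have h4 := Pool.Agent.TH471.N4.s4 j3
  have h9 := Pool.Agent.TH611.M5.s9
  have hsec : ∀ κ m : ℕ, ∃ w : Fin n → Ix a b → ℂ, Tuple i j P w ∧
      SepV (chart i j P) (fun F => Sec π (m₁ κ + m) (π F)) (s κ m) w := fun κ m =>
    h4 a b P α β γ hX i j FF π hπ hfin k g₁ g₂ hP n (m₁ κ + m) (s κ m)
      (by have := hs κ m; omega) (T κ m) (hTc κ m) (hTE κ m) (hT κ m)
  have hVeq : ∀ m, (fun F : Co a b => F ∈ (SecM π m).comap π.toLinearMap) =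
      fun F => Sec π m (π F) := fun m => by
    funext F
    exact propext ((h0 a b P i j FF π hπ m).1 (π F))
  obtain ⟨H, hH1, hH2⟩ := h9 a b P hX.prime hX.hom i j hi hj
    (fun u => (SecM π (m₁ u.unpair.1 + u.unpair.2)).comap π.toLinearMap) n
    (fun u => s u.unpair.1 u.unpair.2) (fun u => hs _ _) (fun u => by
      rw [hVeq]
      exact hsec _ _)
  refine ⟨H, hH1, fun w hw hHw => ?_⟩
  obtain ⟨hinj, hsep⟩ := hH2 w hw hHw
  refine ⟨hinj, fun ε hε => ?_⟩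
  obtain ⟨κ, hκ⟩ := exists_nat_one_div_lt hε
  refine ⟨m₁ κ, fun m hm => ?_⟩
  obtain ⟨m', rfl⟩ := Nat.exists_eq_add_of_le hm
  refine ⟨s κ m', hs κ m', ?_, ?_⟩
  · refine le_trans ?_ (hsm κ m')
    have h1 : (0 : ℝ) ≤ ((m₁ κ + m' : ℕ) : ℝ) := Nat.cast_nonneg _
    exact mul_le_mul_of_nonneg_right (by linarith) h1
  · have h1 := hsep (Nat.pair κ m')
    rw [hVeq, Nat.unpair_pair] at h1
    exact h1

/-- curves through very general points -/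
theorem curve_of_jets {P : Ideal (Co a b)} {i : Fin (a + 1)} {j : Fin (b + 1)}
    {FF : Type} [Field FF] [Algebra ℂ FF] {π : Co a b →ₐ[ℂ] FF} (hπ : Mod P i j π) {n : ℕ} {c : ℝ}
    {w : Fin n → Ix a b → ℂ} (hw : Tuple i j P w) (hinj : Function.Injective w)
    (hJ : JetsGE P i j π c w) {Q : Ideal (Co a b)} {dA dB : ℝ} (hPQ : P ≤ Q) (hQ : Curv Q dA dB)
    {μ : Fin n → ℝ} (hμ : ∀ q, IsMult i j Q (w q) (μ q)) (hpos : 0 < ∑ q, μ q) :
    c * ∑ q, μ q ≤ dA - dB := by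
  refine le_of_forall_pos_le_add fun ε hε => ?_
  obtain ⟨η, hη⟩ : ∃ η : ℝ, η = ε / (2 * ∑ q, μ q) := ⟨_, rfl⟩
  have hη0 : 0 < η := by rw [hη]; positivity
  have hηε : 2 * η * ∑ q, μ q = ε := by rw [hη]; field_simp
  obtain ⟨m₁, hm₁⟩ := hJ η hη0
  obtain ⟨m2, hm2⟩ := exists_nat_ge (1 / η)
  obtain ⟨m, hm⟩ : ∃ m : ℕ, m = max (max m₁ m2) 1 := ⟨_, rfl⟩
  obtain ⟨s, hs, hsm, hsep⟩ := hm₁ m (by rw [hm]; exact (le_max_left _ _).trans (le_max_left _ _))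
  have hm0 : (0 : ℝ) < m := by
    have : 1 ≤ m := by rw [hm]; exact le_max_right _ _
    exact_mod_cast this
  have hm3 : 1 / η ≤ m := hm2.trans (by
    rw [hm]; exact_mod_cast (le_max_right _ _).trans (le_max_left _ _))
  have hm4 : 1 ≤ η * m := by
    rw [div_le_iff₀ hη0] at hm3
    linarith
  have h1 := curve P i j π hπ n m s hs w hw hinj hsep Q dA dB hPQ hQ μ hμ hpos
  have h2 : (c - 2 * η) * m ≤ (s : ℝ) - 1 := by linarith
  have h3 : (c - 2 * η) * m * ∑ q, μ q ≤ m * (dA - dB) :=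
    (mul_le_mul_of_nonneg_right h2 hpos.le).trans h1
  have h4 : m * ((c - 2 * η) * ∑ q, μ q) ≤ m * (dA - dB) := by
    calc m * ((c - 2 * η) * ∑ q, μ q) = (c - 2 * η) * m * ∑ q, μ q := by ring
      _ ≤ _ := h3
  have h5 := le_of_mul_le_mul_left h4 hm0
  have h6 : (c - 2 * η) * ∑ q, μ q = c * ∑ q, μ q - ε := by rw [← hηε]; ring
  linarith

end Pool.Agent.Y917.BS
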