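import Pool.Agent.Y917.BS.Low

/-!
# The upper bound: dimension count, and curves
-/

set_option autoImplicit false

open MvPolynomial Module Filter Topology

namespace Pool.Agent.Y917.BS

open Pool.Agent.TH279.GR Pool.Agent.TH306.N4

variable {a b : ℕ}

/-- the number of conditions is at most the dimension -/
theorem count {P : Ideal (Co a b)} {i : Fin (a + 1)} {j : Fin (b + 1)}
    {FF : Type} [Field FF] [Algebra ℂ FF] {π : Co a b →ₐ[ℂ] FF} (hπ : Mod P i j π) {n m s : ℕ}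
    {w : Fin n → Ix a b → ℂ} (hsm : ∀ q, SmoothAt P i j (w q))
    (hsep : SepV (chart i j P) (fun F => Sec π m (π F)) s w) (hfin : FiniteDimensional ℂ (SecM π m)) :
    n * (s * (s + 1) / 2) ≤ finrank ℂ (SecM π m) := by
  classical
  have hmem := (Pool.Agent.TH880.N4.s0 a b P i j FF π hπ m).1
  let V : Submodule ℂ (Co a b) := (SecM π m).comap π.toLinearMap
  have hV : ∀ F, F ∈ V ↔ Sec π m (π F) := fun F => hmem (π F)
  have hfq : ∀ q, Module.Finite ℂ (Co a b ⧸ (chart i j P ⊔ mx (w q) ^ s)) :=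
    fun q => Pool.Agent.W601.Curve.finite_quot_of_le (w q) s _ le_sup_right
  let Φ : V →ₗ[ℂ] (∀ q, Co a b ⧸ (chart i j P ⊔ mx (w q) ^ s)) :=
    LinearMap.pi fun q => (Ideal.Quotient.mkₐ ℂ (chart i j P ⊔ mx (w q) ^ s)).toLinearMap.comp
      V.subtype
  have hΦ : ∀ (x : V) q, Φ x q = Ideal.Quotient.mk (chart i j P ⊔ mx (w q) ^ s) x.1 :=
    fun _ _ => rfl
  have hsurj : Function.Surjective Φ := by
    intro x
    choose f hf using fun q => Ideal.Quotient.mk_surjective (x q)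
    choose F hF1 hF2 hF3 using fun q => hsep q (f q)
    refine ⟨⟨∑ q, F q, V.sum_mem fun q _ => (hV _).2 (hF1 q)⟩, ?_⟩
    funext q'
    rw [hΦ]
    show Ideal.Quotient.mk (chart i j P ⊔ mx (w q') ^ s) (∑ q, F q) = x q'
    rw [map_sum, Finset.sum_eq_single q']
    · rw [← hf q', Ideal.Quotient.eq]
      exact hF2 q'
    · intro q _ hq
      exact Ideal.Quotient.eq_zero_iff_mem.2 (hF3 q q' (Ne.symm hq))
    · intro h
      exact absurd (Finset.mem_univ _) h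
  obtain ⟨σ, hσ⟩ := Φ.exists_rightInverse_of_surjective (LinearMap.range_eq_top.2 hsurj)
  let Ψ : V →ₗ[ℂ] SecM π m := (π.toLinearMap.comp V.subtype).codRestrict (SecM π m) fun x => x.2
  have hinj : Function.Injective (Ψ.comp σ) := by
    rw [← LinearMap.ker_eq_bot, LinearMap.ker_eq_bot']
    intro x hx
    have h1 : π (σ x : V).1 = 0 := congrArg Subtype.val hx
    have h2 : (σ x : V).1 ∈ chart i j P := (hπ.ker _).1 h1
    have h3 : Φ (σ x) = x := by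
      have := congrArg (fun g : (∀ q, Co a b ⧸ (chart i j P ⊔ mx (w q) ^ s)) →ₗ[ℂ] _ => g x) hσ
      exact this
    rw [← h3]
    funext q
    rw [hΦ]
    exact Ideal.Quotient.eq_zero_iff_mem.2 (Ideal.mem_sup_left h2)
  have h1 := LinearMap.finrank_le_finrank_of_injective hinj
  rw [Module.finrank_pi_fintype] at h1
  have h2 : ∑ q, finrank ℂ (Co a b ⧸ (chart i j P ⊔ mx (w q) ^ s)) = n * (s * (s + 1) / 2) := by
    rw [Finset.sum_congr rfl fun q _ => hsm q s]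
    simp
  rwa [h2] at h1

/-- the sections of the multiples of `L` separate at most jets of the order `(c + ε) m` at `w` -/
def JetsLE (P : Ideal (Co a b)) (i : Fin (a + 1)) (j : Fin (b + 1)) {FF : Type} [Field FF]
    [Algebra ℂ FF] (π : Co a b →ₐ[ℂ] FF) {n : ℕ} (c : ℝ) (w : Fin n → Ix a b → ℂ) : Prop :=
  ∀ ε : ℝ, 0 < ε → ∃ m₁ : ℕ, ∀ m, m₁ ≤ m → ∀ s : ℕ,
    SepV (chart i j P) (fun F => Sec π m (π F)) s w → (s : ℝ) ≤ (c + ε) * m

/-- the upper bound from the volume -/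
theorem up {P : Ideal (Co a b)} {i : Fin (a + 1)} {j : Fin (b + 1)}
    {FF : Type} [Field FF] [Algebra ℂ FF] {π : Co a b →ₐ[ℂ] FF} (hπ : Mod P i j π)
    (hfin : ∀ m, FiniteDimensional ℂ (SecM π m)) {δ : ℝ} (hδ : 0 ≤ δ)
    (hgr : ∀ ε : ℝ, 0 < ε → ∃ m₀ : ℕ, ∀ m, m₀ ≤ m →
      2 * (finrank ℂ (SecM π m) : ℝ) ≤ (δ + ε) * (m : ℝ) ^ 2)
    {n : ℕ} (hn : 1 ≤ n) {w : Fin n → Ix a b → ℂ} (hsm : ∀ q, SmoothAt P i j (w q)) :
    JetsLE P i j π (√(δ / n)) w := by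
  intro ε hε
  have hn0 : (0 : ℝ) < n := by exact_mod_cast hn
  obtain ⟨m₀, hm₀⟩ := hgr (n * ε ^ 2) (by positivity)
  refine ⟨m₀, fun m hm s hsep => ?_⟩
  have h1 := count hπ hsm hsep (hfin m)
  have h2 := hm₀ m hm
  have h3 : 2 * (s * (s + 1) / 2) = s * (s + 1) :=
    Nat.mul_div_cancel' (Nat.even_mul_succ_self s).two_dvd
  have h4 : n * (s * (s + 1)) ≤ 2 * finrank ℂ (SecM π m) := by
    calc n * (s * (s + 1)) = n * (2 * (s * (s + 1) / 2)) := by rw [h3]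
      _ = 2 * (n * (s * (s + 1) / 2)) := by ring
      _ ≤ _ := Nat.mul_le_mul_left 2 h1
  have h5 : (n : ℝ) * (s * (s + 1)) ≤ (δ + n * ε ^ 2) * (m : ℝ) ^ 2 := by
    refine le_trans ?_ h2
    exact_mod_cast h4
  obtain ⟨c, hc⟩ : ∃ c : ℝ, c = √(δ / n) := ⟨_, rfl⟩
  have hc0 : 0 ≤ c := by rw [hc]; exact Real.sqrt_nonneg _
  have hcc : c ^ 2 * n = δ := by
    rw [hc, Real.sq_sqrt (by positivity)]
    field_simp
  have hs0 : (0 : ℝ) ≤ s := Nat.cast_nonneg s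
  have hm0 : (0 : ℝ) ≤ m := Nat.cast_nonneg m
  have h6 : (n : ℝ) * (s : ℝ) ^ 2 ≤ n * ((c + ε) * m) ^ 2 := by
    have h7 : (n : ℝ) * (s : ℝ) ^ 2 ≤ n * (s * (s + 1)) := by nlinarith
    have h8 : (δ + n * ε ^ 2) * (m : ℝ) ^ 2 ≤ n * ((c + ε) * m) ^ 2 := by
      rw [← hcc]
      have h9 : 0 ≤ 2 * (n : ℝ) * c * ε * (m : ℝ) ^ 2 := by positivity
      nlinarith
    linarith
  have h7 : (s : ℝ) ^ 2 ≤ ((c + ε) * m) ^ 2 := le_of_mul_le_mul_left h6 hn0
  rw [← hc]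
  exact le_of_sq_le_sq h7 (by positivity)

/-- the upper bound from curves -/
theorem up_curves {P : Ideal (Co a b)} {i : Fin (a + 1)} {j : Fin (b + 1)}
    {FF : Type} [Field FF] [Algebra ℂ FF] {π : Co a b →ₐ[ℂ] FF} (hπ : Mod P i j π)
    {n : ℕ} {w : Fin n → Ix a b → ℂ} (hw : Tuple i j P w) (hinj : Function.Injective w) {c : ℝ}
    (hc : IsGLB (ratios i j P w) c) (hc0 : 0 ≤ c) :
    JetsLE P i j π c w := by
  intro ε hε
  obtain ⟨x, ⟨Q, dA, dB, μ, hPQ, hQ, hμ, hpos, hx⟩, hxc⟩ : ∃ x ∈ ratios i j P w, x < c + ε / 2 := by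
    by_contra hcon
    push Not at hcon
    have := hc.2 hcon
    linarith
  obtain ⟨m₁, hm₁⟩ := exists_nat_ge (2 / ε)
  refine ⟨m₁, fun m hm s hsep => ?_⟩
  have hm0 : (0 : ℝ) ≤ m := Nat.cast_nonneg m
  have hm1 : 2 / ε ≤ m := hm₁.trans (by exact_mod_cast hm)
  have hm2 : 1 ≤ ε / 2 * m := by
    rw [div_le_iff₀ hε] at hm1
    linarith
  have hcm : 0 ≤ c * m := mul_nonneg hc0 hm0
  rcases Nat.lt_or_ge s 2 with hs | hs
  · have : (s : ℝ) ≤ 1 := by exact_mod_cast (by omega : s ≤ 1)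
    nlinarith
  · have h1 := curve P i j π hπ n m s hs w hw hinj hsep Q dA dB hPQ hQ μ hμ hpos
    have h2 : dA - dB < (c + ε / 2) * ∑ q, μ q := by
      rw [hx, div_lt_iff₀ hpos] at hxc
      exact hxc
    have h3 : ((s : ℝ) - 1) * ∑ q, μ q ≤ (m * (c + ε / 2)) * ∑ q, μ q := by
      refine h1.trans ?_
      rw [mul_assoc]
      exact mul_le_mul_of_nonneg_left h2.le hm0
    have h4 := le_of_mul_le_mul_right h3 hpos
    linarith

end Pool.Agent.Y917.BS
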